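import Pool.Agent.P.MP_11b517_an.Gap.Wit

/-! Subtrees of the free group. -/

set_option autoImplicit false

namespace Pool.Agent.P.MP_11b517_an.St

variable {ι : Type} [DecidableEq ι]

/-- A letter. -/
def lt (s : ι × Bool) : FreeGroup ι := FreeGroup.mk [s]

/-- The initial word of length `i`. -/
def pre (i : ℕ) (t : FreeGroup ι) : FreeGroup ι := FreeGroup.mk (t.toWord.take i)

/-- A function that behaves like the distance to a subtree. -/
structure Scar (d : FreeGroup ι → ℕ) : Prop where
  lip : ∀ t s, d t ≤ d (t * lt s) + 1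
  out : ∀ t, 0 < d t → ∃ s₀, ∀ s, s ≠ s₀ → d t + 1 ≤ d (t * lt s)

/-- The ball of radius `v` around `t` lies on one side. -/
def Side (d : FreeGroup ι → ℕ) (v : ℕ) (t : FreeGroup ι) : Prop :=
  (∀ u : FreeGroup ι, u.norm ≤ v → d (t * u) = 0) ∨ ∀ u : FreeGroup ι, u.norm ≤ v → d (t * u) ≠ 0

/-- The subtree reached from the ball of radius `R` through bad vertices. -/
def Cut (bad : FreeGroup ι → Prop) (R : ℕ) (t : FreeGroup ι) : Prop :=
  ∀ i, R < i → i ≤ t.norm → bad (pre i t)

/-- One step of the simple random walk. -/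
noncomputable def walk [Fintype ι] (u : FreeGroup ι → ℝ) (t : FreeGroup ι) : ℝ :=
  (∑ s : ι × Bool, u (t * lt s)) / Fintype.card (ι × Bool)

end Pool.Agent.P.MP_11b517_an.St
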