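import Pool.Agent.P.MP_11b517_an.St.Uniq

/-! The strictly ergodic model from the stages. -/

set_option autoImplicit false

namespace Pool.Agent.P.MP_11b517_an.St

open MeasureTheory Set Filter

variable {ι Ω : Type} [DecidableEq ι] [Fintype ι] [MeasurableSpace Ω] [MulAction (FreeGroup ι) Ω]
  {μ : Measure Ω} [IsProbabilityMeasure μ] {Q : ℕ → Cod ι} {E : ℕ → Set Ω} {s : ℕ → State Ω}

/-- The shift action on the model space. -/
@[reducible] def Model_act (H : ∀ k, Step μ (Q k) (E k) k (s k) (s (k + 1))) :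
    MulAction (FreeGroup ι) (YY ι s) where
  smul g y := ⟨fun t => y.1 (g⁻¹ * t), YY_shift H y.2 g⁻¹⟩
  one_smul y := Subtype.ext (funext fun t => by
    change y.1 (1⁻¹ * t) = y.1 t
    simp)
  mul_smul g h y := Subtype.ext (funext fun t => by
    change y.1 ((g * h)⁻¹ * t) = y.1 (h⁻¹ * (g⁻¹ * t))
    simp [mul_assoc])

theorem YY_free (H : ∀ k, Step μ (Q k) (E k) k (s k) (s (k + 1))) {y : Cfg ι} (hy : y ∈ YY ι s)
    {g : FreeGroup ι} (hg : g ≠ 1) (e : ∀ t, y (g * t) = y t) : False := by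
  obtain ⟨d, -, x, hx, x', hx', h⟩ := YY_glued H hy (2 * g.norm)
  have n := (H (2 * g.norm)).kN
  have n2 := FreeGroup.norm_mul_le g g
  have e1 := h 1 (by simp) _ le_rfl
  have e2 := h g (by omega) _ le_rfl
  have e3 := h (g * g) (by omega) _ le_rfl
  have key : ∀ z ∈ (s (2 * g.norm + 1)).Gd, ∀ a b : FreeGroup ι, b ≠ 1 → b.norm ≤ 2 * g.norm →
      (s (2 * g.norm + 1)).q ((a * b)⁻¹ • z) (2 * g.norm) ≠
        (s (2 * g.norm + 1)).q (a⁻¹ • z) (2 * g.norm) := fun z hz a b b1 b2 => by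
    rw [mul_inv_rev, mul_smul]
    exact (H _).col _ ((H _).inv _ _ hz) _ (inv_ne_one.2 b1) (by simpa using b2)
  have g2 : g * g ≠ 1 := fun k => hg (sq_eq_one.1 (by rwa [sq]))
  have k1 := fun z hz => key z hz 1 g hg (by omega)
  have k2 := fun z hz => key z hz 1 (g * g) g2 (by omega)
  have k3 := fun z hz => key z hz g g hg (by omega)
  rw [e g] at e3
  have e4 := e 1
  simp only [one_mul, mul_one] at k1 k2 e4
  rw [e4] at e2 e3
  split_ifs at e1 e2 e3
  all_goals first
    | exact k1 _ (by assumption) (e2.symm.trans e1)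
    | exact k2 _ (by assumption) (e3.symm.trans e1)
    | exact k3 _ (by assumption) (e3.symm.trans e2)

theorem model [Nontrivial ι] [StandardBorelSpace Ω]
    (hmp : ∀ g : FreeGroup ι, MeasurePreserving (fun x : Ω => g • x) μ μ)
    (H : ∀ k, Step μ (Q k) (E k) k (s k) (s (k + 1))) (hQ : ∀ c n, ∃ k, n ≤ k ∧ Q k = c)
    (hE : ∀ x x' : Ω, (∀ᶠ k in atTop, x ∈ E k ↔ x' ∈ E k) → x = x') :
    ∃ (X : Type) (_ : TopologicalSpace X) (_ : MeasurableSpace X) (_ : MulAction (FreeGroup ι) X),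
      BorelSpace X ∧ CompactSpace X ∧ TopologicalSpace.MetrizableSpace X ∧
      (∀ g : FreeGroup ι, Continuous (fun x : X => g • x)) ∧
      TotallyDisconnectedSpace X ∧ (∀ x : X, Dense (MulAction.orbit (FreeGroup ι) x)) ∧
      (∀ (g : FreeGroup ι) (x : X), g • x = x → g = 1) ∧
      ∃ ν : Measure X, IsProbabilityMeasure ν ∧
        (∀ g : FreeGroup ι, Measure.map (fun x : X => g • x) ν = ν) ∧
        (∀ ν' : Measure X, IsProbabilityMeasure ν' →
            (∀ g : FreeGroup ι, Measure.map (fun x : X => g • x) ν' = ν') → ν' = ν) ∧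
        ∃ (φ : Ω → X) (ψ : X → Ω), Measurable φ ∧ Measurable ψ ∧
          Measure.map φ μ = ν ∧
          (∀ g : FreeGroup ι, ∀ᵐ ω ∂μ, φ (g • ω) = g • φ ω) ∧
          (∀ᵐ ω ∂μ, ψ (φ ω) = ω) ∧
          (∀ᵐ x ∂ν, φ (ψ x) = x) := by
  classical
  let := Model_act H
  have sv : ∀ (g : FreeGroup ι) (y : YY ι s), (g • y).1 = fun t => y.1 (g⁻¹ * t) := fun _ _ => rfl
  have hc : ∀ g : FreeGroup ι, Continuous fun y : YY ι s => g • y := fun g =>
    Continuous.subtype_mk (f := fun (y : YY ι s) (t : FreeGroup ι) => y.1 (g⁻¹ * t))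
      (continuous_pi fun t => (continuous_apply (g⁻¹ * t)).comp continuous_subtype_val) _
  have hcl : IsClosed (YY ι s) := isClosed_iInter fun _ => isClosed_closure
  have hmY : MeasurableSet (YY ι s) := hcl.measurableSet
  have hval : MeasurableEmbedding (Subtype.val : YY ι s → Cfg ι) := MeasurableEmbedding.subtype_coe hmY
  obtain ⟨P, hP, hl⟩ := limit H
  have hΦ : Measurable (cfg ι P) := measurable_pi_lambda _ fun g => hP.comp (hmp _).measurable
  have hgood : ∀ᵐ x ∂μ, cfg ι P x ∈ YY ι s := by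
    have h1 : ∀ᵐ x ∂μ, ∀ g : FreeGroup ι, ∀ᶠ k in atTop, ∀ j ≤ k,
        P (g⁻¹ • x) j = (s (k + 1)).q (g⁻¹ • x) j :=
      ae_all_iff.2 fun g => (hmp g⁻¹).quasiMeasurePreserving.ae hl
    have h2 : ∀ᵐ x ∂μ, ∀ k, x ∈ (s (k + 1)).Gd := ae_all_iff.2 fun k => (H k).ae
    filter_upwards [h1, h2] with x h1 h2
    refine mem_iInter.2 fun m => mem_closure_of_tendsto (b := atTop)
      (f := fun k => cfg ι (s (k + 1)).q x) ?_ ?_
    · refine tendsto_pi_nhds.2 fun g => tendsto_pi_nhds.2 fun j => tendsto_const_nhds.congr' ?_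
      filter_upwards [h1 g, eventually_ge_atTop j] with k hk hj
      exact hk j hj
    · filter_upwards [eventually_ge_atTop m] with k hk
      exact ⟨k, hk, x, h2 k, rfl⟩
  obtain ⟨ω₀, hω₀⟩ := hgood.exists
  let φ : Ω → YY ι s := fun ω => ⟨if cfg ι P ω ∈ YY ι s then cfg ι P ω else cfg ι P ω₀, by
    split_ifs with h
    · exact h
    · exact hω₀⟩
  have hφ : Measurable φ := (Measurable.ite (hΦ hmY) hΦ measurable_const).subtype_mk
  have hφv : ∀ᵐ ω ∂μ, (φ ω).1 = cfg ι P ω := hgood.mono fun ω hω => if_pos hω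
  obtain ⟨T, hT1, hT2, hT3⟩ := hl.exists_measurable_mem
  have : StandardBorelSpace T := hT2.standardBorel
  have hT1' : ∀ᵐ x ∂μ, x ∈ T := hT1
  obtain ⟨x₀, hx₀⟩ := hT1'.exists
  have : Nonempty T := ⟨⟨x₀, hx₀⟩⟩
  have he : MeasurableEmbedding fun x : T => P x :=
    (hP.comp measurable_subtype_coe).measurableEmbedding fun x x' e => Subtype.ext (hE _ _ (by
      filter_upwards [hT3 _ x.2, hT3 _ x'.2] with k a b
      refine (H k).sep _ _ ?_
      rw [← a k le_rfl, ← b k le_rfl]
      exact congrFun e k))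
  let ψ : YY ι s → Ω := fun y => (he.invFun (y.1 1) : T)
  have hψ : Measurable ψ := measurable_subtype_coe.comp (he.measurable_invFun.comp
    ((measurable_pi_apply 1).comp measurable_subtype_coe))
  have heq : ∀ g : FreeGroup ι, ∀ᵐ ω ∂μ, φ (g • ω) = g • φ ω := fun g => by
    filter_upwards [hφv, (hmp g).quasiMeasurePreserving.ae hφv] with ω h1 h2
    refine Subtype.ext (funext fun p => ?_)
    rw [sv, h1, h2]
    simp only [cfg, mul_inv_rev, inv_inv, mul_smul]
  have hl' : ∀ᵐ ω ∂μ, ψ (φ ω) = ω := by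
    filter_upwards [hφv, hT1'] with ω hω h
    simp only [ψ, hω, cfg, inv_one, one_smul]
    exact congrArg Subtype.val (he.leftInverse_invFun ⟨ω, h⟩)
  have hPr : IsProbabilityMeasure (μ.map φ) := Measure.isProbabilityMeasure_map hφ.aemeasurable
  have hinv : ∀ g : FreeGroup ι, Measure.map (fun x : YY ι s => g • x) (μ.map φ) = μ.map φ :=
    fun g => by
      rw [Measure.map_map (hc g).measurable hφ]
      nth_rewrite 2 [← (hmp g).map_eq]
      rw [Measure.map_map hφ (hmp g).measurable]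
      exact Measure.map_congr ((heq g).mono fun ω hω => hω.symm)
  have uq : ∀ ν' : Measure (YY ι s), IsProbabilityMeasure ν' →
      (∀ g : FreeGroup ι, Measure.map (fun x : YY ι s => g • x) ν' = ν') →
      ν'.map Subtype.val = μ.map (cfg ι P) := fun ν' _ hν' => by
    have := Measure.isProbabilityMeasure_map (μ := ν') hval.measurable.aemeasurable
    refine YY_unique hmp H hQ hP hl _
      ((ae_map_iff hval.measurable.aemeasurable hmY).2 (Eventually.of_forall fun y => y.2))
      fun g => ?_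
    have hm : Measurable fun y : Cfg ι => (fun t => y (g * t) : Cfg ι) :=
      measurable_pi_lambda _ fun t => measurable_pi_apply _
    refine ⟨hm, ?_⟩
    nth_rewrite 2 [← hν' g⁻¹]
    rw [Measure.map_map hm hval.measurable, Measure.map_map hval.measurable (hc _).measurable]
    congr 1
    funext y
    simp only [Function.comp_apply, sv, inv_inv]
  refine ⟨YY ι s, inferInstance, inferInstance, inferInstance, inferInstance,
    isCompact_iff_compactSpace.1 (YY_compact H), inferInstance, hc, inferInstance, fun x y => ?_,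
    fun g x e => by_contra fun k => YY_free H x.2 (inv_ne_one.2 k) fun t =>
      congrFun (congrArg Subtype.val e) t, μ.map φ, hPr, hinv, fun ν' h1 hν' => ?_, φ, ψ, hφ, hψ, rfl, heq, hl', ?_⟩
  · refine closure_subtype.2 (closure_mono ?_ (YY_min H y.2 x.2))
    rintro _ ⟨g, rfl⟩
    exact ⟨g⁻¹ • x, ⟨g⁻¹, rfl⟩, by simp only [sv, inv_inv]⟩
  · rw [← hval.comap_map ν', uq ν' h1 hν', ← uq _ hPr hinv, hval.comap_map]
  · have : StandardBorelSpace (YY ι s) := hmY.standardBorel
    exact (ae_map_iff hφ.aemeasurable (measurableSet_eq_fun (hφ.comp hψ) measurable_id)).2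
      (hl'.mono fun ω hω => congrArg φ hω)

end Pool.Agent.P.MP_11b517_an.St
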