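import Pool.Agent.P.MP_11b517_an.St.Stage
import Pool.Agent.P.MP_11b517_an.St.Model

/-! From a uniquely ergodic model to a free strictly ergodic model. -/

set_option autoImplicit false

namespace Pool.Agent.P.MP_11b517_an.St

open MeasureTheory

/-- The action has a uniquely ergodic topological model; if `strict` holds, the
model is also totally disconnected, minimal and free. -/
def HasModel (strict : Prop) (G : Type) [Group G] {Ω : Type} [MeasurableSpace Ω] [MulAction G Ω]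
    (μ : Measure Ω) : Prop :=
  ∃ (X : Type) (_ : TopologicalSpace X) (_ : MeasurableSpace X) (_ : MulAction G X),
    BorelSpace X ∧ CompactSpace X ∧ TopologicalSpace.MetrizableSpace X ∧
    (∀ g : G, Continuous (fun x : X => g • x)) ∧
    (strict → TotallyDisconnectedSpace X ∧ (∀ x : X, Dense (MulAction.orbit G x)) ∧
      ∀ (g : G) (x : X), g • x = x → g = 1) ∧
    ∃ ν : Measure X, IsProbabilityMeasure ν ∧
      (∀ g : G, Measure.map (fun x : X => g • x) ν = ν) ∧
      (∀ ν' : Measure X, IsProbabilityMeasure ν' →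
          (∀ g : G, Measure.map (fun x : X => g • x) ν' = ν') → ν' = ν) ∧
      ∃ (φ : Ω → X) (ψ : X → Ω), Measurable φ ∧ Measurable ψ ∧
        Measure.map φ μ = ν ∧
        (∀ g : G, ∀ᵐ ω ∂μ, φ (g • ω) = g • φ ω) ∧
        (∀ᵐ ω ∂μ, ψ (φ ω) = ω) ∧
        (∀ᵐ x ∂ν, φ (ψ x) = x)

variable {ι Ω : Type} [Finite ι] [Nontrivial ι] [MeasurableSpace Ω] [MulAction (FreeGroup ι) Ω]
  {μ : Measure Ω} [IsProbabilityMeasure μ]

theorem strict_of_model (hmp : ∀ g : FreeGroup ι, MeasurePreserving (fun x : Ω => g • x) μ μ)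
    (hfr : ∀ g : FreeGroup ι, g ≠ 1 → μ {x : Ω | g • x = x} = 0)
    (h : HasModel False (FreeGroup ι) μ) : HasModel True (FreeGroup ι) μ := by
  classical
  have := Fintype.ofFinite ι
  obtain ⟨X, _, _, _, _, _, _, hc, -, ν, _, hν, hu, φ, ψ, hφ, hψ, hm, he, h1, h2⟩ := h
  let _ := TopologicalSpace.metrizableSpaceMetric X
  have hq : Measure.QuasiMeasurePreserving φ μ ν := ⟨hφ, hm.absolutelyContinuous⟩
  have fr : ∀ g : FreeGroup ι, g ≠ 1 → ν {x : X | g • x = x} = 0 := fun g hg => by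
    rw [← hm, Measure.map_apply hφ (measurableSet_eq_fun (hc g).measurable measurable_id')]
    refine measure_eq_zero_iff_ae_notMem.2 ?_
    filter_upwards [he g, h1, (hmp g).quasiMeasurePreserving.ae h1,
      measure_eq_zero_iff_ae_notMem.1 (hfr g hg)] with x a1 a2 a3 a4 a5
    exact a4 (a3.symm.trans ((congrArg ψ (a1.trans a5)).trans a2))
  obtain ⟨Q, E, s, k1, k2, k3⟩ := stages hc hν hu fr
  obtain ⟨Y, i1, i2, i3, b1, b2, b3, b4, b5, b6, b7, ν', b8, b9, b10, φ', ψ', c1, c2, c3, c4, c5,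
    -⟩ := model (fun g => ⟨(hc g).measurable, hν g⟩) k1 k2 k3
  let _ := TopologicalSpace.metrizableSpaceMetric Y
  have e1 : Measure.map (φ' ∘ φ) μ = ν' := by rw [← Measure.map_map c1 hφ, hm, c3]
  have e2 : ∀ᵐ ω ∂μ, (ψ ∘ ψ') ((φ' ∘ φ) ω) = ω := by
    filter_upwards [hq.ae c5, h1] with x a1 a2
    simp only [Function.comp_apply, a1, a2]
  refine ⟨Y, i1, i2, i3, b1, b2, b3, b4, fun _ => ⟨b5, b6, b7⟩, ν', b8, b9, b10, φ' ∘ φ, ψ ∘ ψ',
    c1.comp hφ, hψ.comp c2, e1, fun g => ?_, e2, ?_⟩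
  · filter_upwards [hq.ae (c4 g), he g] with x a1 a2
    simp only [Function.comp_apply, a1, a2]
  · rw [← e1]
    exact (ae_map_iff (c1.comp hφ).aemeasurable (measurableSet_eq_fun
      ((c1.comp hφ).comp (hψ.comp c2)) measurable_id)).2 (e2.mono fun ω hω => congrArg _ hω)

end Pool.Agent.P.MP_11b517_an.St
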