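import Pool.Agent.P.MP_11b517_an.St.Defs

/-! Initial words, cuts and sparse markers. -/

set_option autoImplicit false

namespace Pool.Agent.P.MP_11b517_an.St

variable {ι : Type} [DecidableEq ι]

theorem finite_ball [Finite ι] (n : ℕ) : {t : FreeGroup ι | t.norm ≤ n}.Finite :=
  (List.finite_length_le (ι × Bool) n).preimage FreeGroup.toWord_injective.injOn

theorem toWord_pre (i : ℕ) (t : FreeGroup ι) : (pre i t).toWord = t.toWord.take i := by
  rw [pre, FreeGroup.toWord_mk]
  exact FreeGroup.IsReduced.reduce_eq (List.IsChain.take FreeGroup.isReduced_toWord _)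

theorem norm_pre (i : ℕ) (t : FreeGroup ι) : (pre i t).norm = min i (t.norm) := by
  rw [FreeGroup.norm, toWord_pre, List.length_take]
  rfl

theorem pre_norm (t : FreeGroup ι) : pre t.norm t = t := by
  rw [pre, FreeGroup.norm, List.take_length, FreeGroup.mk_toWord]

theorem pre_zero (t : FreeGroup ι) : pre 0 t = 1 := rfl

theorem pre_pre {i j : ℕ} (h : j ≤ i) (t : FreeGroup ι) : pre j (pre i t) = pre j t := by
  rw [pre, toWord_pre, List.take_take, min_eq_left h, pre]

theorem pre_succ {i : ℕ} {t : FreeGroup ι} (h : i < t.norm) :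
    ∃ s, pre (i + 1) t = pre i t * lt s :=
  ⟨t.toWord[i], by rw [pre, pre, lt, FreeGroup.mul_mk, List.take_succ_eq_append_getElem]⟩

omit [DecidableEq ι] in
theorem lt_not (s : ι × Bool) : lt (s.1, !s.2) = (lt s)⁻¹ := by
  rw [lt, lt, FreeGroup.inv_mk]
  rfl

theorem norm_mul_lt (t : FreeGroup ι) (s : ι × Bool) : (t * lt s).norm ≤ t.norm + 1 :=
  (FreeGroup.norm_mul_le _ _).trans (Nat.add_le_add_left FreeGroup.norm_mk_le _)

theorem child_or (t : FreeGroup ι) (s : ι × Bool) : (t * lt s).toWord = t.toWord ++ [s] ∨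
    t.toWord = (t * lt s).toWord ++ [(s.1, !s.2)] := by
  by_cases h : ∃ L, t.toWord = L ++ [(s.1, !s.2)]
  · obtain ⟨L, h⟩ := h
    have e : t * lt s = FreeGroup.mk L := by
      rw [← FreeGroup.mk_toWord (x := t), h, ← FreeGroup.mul_mk, ← lt, lt_not,
        inv_mul_cancel_right]
    have r : FreeGroup.IsReduced L := List.IsChain.left_of_append
      (show FreeGroup.IsReduced _ from h ▸ FreeGroup.isReduced_toWord (x := t))
    rw [e, FreeGroup.toWord_mk, r.reduce_eq]
    exact Or.inr h
  · left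
    have e : t * lt s = FreeGroup.mk (t.toWord ++ [s]) := by
      rw [← FreeGroup.mul_mk, FreeGroup.mk_toWord, lt]
    rw [e, FreeGroup.toWord_mk]
    refine FreeGroup.IsReduced.reduce_eq (List.IsChain.append FreeGroup.isReduced_toWord
      (List.isChain_singleton s) fun x hx y hy h1 => ?_)
    obtain rfl : s = y := by simpa using hy
    by_contra h2
    refine h ⟨t.toWord.dropLast, (List.dropLast_append_getLast? x hx).symm.trans ?_⟩
    rw [show x = (s.1, !s.2) from Prod.ext h1 (Bool.eq_not_iff.2 h2)]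

theorem child_norm {t t' : FreeGroup ι} {s : ι × Bool} (h : t'.toWord = t.toWord ++ [s]) :
    t'.norm = t.norm + 1 := by
  rw [FreeGroup.norm, h, List.length_append]
  rfl

theorem child_pre {t t' : FreeGroup ι} {s : ι × Bool} (h : t'.toWord = t.toWord ++ [s]) {i : ℕ}
    (hi : i ≤ t.norm) : pre i t' = pre i t := by
  rw [pre, h, List.take_append_of_le_length hi, pre]

theorem Cut.pre {bad : FreeGroup ι → Prop} {R : ℕ} {t : FreeGroup ι} (h : Cut bad R t) (i : ℕ) :
    Cut bad R (pre i t) := fun j h1 h2 => by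
  rw [norm_pre, le_min_iff] at h2
  rw [pre_pre h2.1]
  exact h j h1 h2.2

theorem Cut.parent {bad : FreeGroup ι → Prop} {R : ℕ} {t t' : FreeGroup ι} {s : ι × Bool}
    (h : t'.toWord = t.toWord ++ [s]) (k : Cut bad R t') : Cut bad R t := by
  have := k.pre t.norm
  rwa [child_pre h le_rfl, pre_norm] at this

theorem Cut.step {bad : FreeGroup ι → Prop} {R : ℕ} {t : FreeGroup ι} {s : ι × Bool}
    (k : Cut bad R t) (b : bad (t * lt s)) : Cut bad R (t * lt s) := by
  rcases child_or t s with h | h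
  · intro i h1 h2
    rcases h2.eq_or_lt with rfl | h2
    · rwa [pre_norm]
    · rw [child_norm h, Nat.lt_succ_iff] at h2
      rw [child_pre h h2]
      exact k i h1 h2
  · exact k.parent h

theorem cut_scar (bad : FreeGroup ι → Prop) (R : ℕ) :
    ∃ d, Scar d ∧ ∀ t, d t = 0 ↔ Cut bad R t := by
  classical
  set d : FreeGroup ι → ℕ := fun t =>
    ∑ i ∈ Finset.range (t.norm + 1), if Cut bad R (pre i t) then 0 else 1 with hd
  have ch : ∀ {t t' : FreeGroup ι} {s : ι × Bool}, t'.toWord = t.toWord ++ [s] →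
      d t' = d t + if Cut bad R t' then 0 else 1 := fun {t t' s} h => by
    simp only [hd]
    rw [Finset.sum_range_succ, pre_norm, child_norm h]
    refine congrArg (· + _) (Finset.sum_congr rfl fun i hi => ?_)
    rw [child_pre h (Nat.lt_succ_iff.1 (Finset.mem_range.1 hi))]
  have z : ∀ t, d t = 0 ↔ Cut bad R t := fun t => by
    simp only [hd, Finset.sum_eq_zero_iff]
    refine ⟨fun h => ?_, fun h i _ => if_pos (h.pre i)⟩
    have := h t.norm (Finset.self_mem_range_succ _)
    rw [pre_norm] at this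
    by_contra c
    simp [c] at this
  refine ⟨d, ⟨fun t s => ?_, fun t ht => ?_⟩, z⟩
  · rcases child_or t s with h | h <;> have := ch h <;> split_ifs at this <;> omega
  · have c : ¬ Cut bad R t := fun c => ht.ne' ((z t).2 c)
    rcases List.eq_nil_or_concat t.toWord with h | ⟨L, x, h⟩
    · exact absurd (fun i h1 h2 => by rw [FreeGroup.norm, h] at h2; simp at h2; omega) c
    refine ⟨(x.1, !x.2), fun s hs => ?_⟩
    rcases child_or t s with h' | h'
    · rw [ch h', if_neg fun c' => c (c'.parent h')]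
    · rw [h, List.concat_eq_append] at h'
      obtain rfl : x = (s.1, !s.2) := by simpa using List.append_inj_right' h' rfl
      simp at hs

theorem cut_exit {bad : FreeGroup ι → Prop} {R N : ℕ} {g t t' : FreeGroup ι} (h : t.norm ≤ N)
    (h' : t'.norm ≤ N) (k : Cut bad R (g * t)) (k' : ¬Cut bad R (g * t')) :
    ∃ u : FreeGroup ι, u.norm ≤ N ∧ ¬bad (g * u) := by
  by_contra c
  push Not at c
  have key : ∀ w : FreeGroup ι, w.norm ≤ N → ∀ i, i ≤ w.norm →
      (Cut bad R (g * pre i w) ↔ Cut bad R (g * 1)) := fun w hw i => by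
    induction i with
    | zero => exact fun _ => Iff.rfl
    | succ i ih =>
      intro hi
      obtain ⟨s, hs⟩ := pre_succ (Nat.lt_of_succ_le hi)
      have b : ∀ j, bad (g * pre j w) := fun j =>
        c _ (by rw [norm_pre]; exact (min_le_right _ _).trans hw)
      rw [← ih (by omega)]
      have e1 : g * pre (i + 1) w = g * pre i w * lt s := by rw [hs, mul_assoc]
      have e2 : g * pre i w = g * pre (i + 1) w * lt (s.1, !s.2) := by
        rw [e1, lt_not, mul_inv_cancel_right]
      exact ⟨fun a => e2 ▸ a.step (e2 ▸ b i), fun a => e1 ▸ a.step (e1 ▸ b (i + 1))⟩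
  have a := key t h _ le_rfl
  have a' := key t' h' _ le_rfl
  rw [pre_norm] at a a'
  exact k' (a'.2 (a.1 k))

theorem Scar.side [Nontrivial ι] {d : FreeGroup ι → ℕ} (h : Scar d) (ρ : ℕ) :
    ∃ t : FreeGroup ι, t.norm ≤ 2 * ρ + 1 ∧ Side d ρ t := by
  by_cases c : ∀ u : FreeGroup ι, u.norm ≤ ρ → d (1 * u) = 0
  · exact ⟨1, by simp, Or.inl c⟩
  push Not at c
  obtain ⟨u, h1, h2⟩ := c
  have a : ∀ k, ∃ t : FreeGroup ι, t.norm ≤ ρ + k ∧ k + 1 ≤ d t := fun k => by
    induction k with
    | zero => exact ⟨u, h1, by rw [one_mul] at h2; omega⟩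
    | succ k ih =>
      obtain ⟨t, a1, a2⟩ := ih
      obtain ⟨s, hs⟩ := h.out t (by omega)
      have := hs (s.1, !s.2) fun e => by simpa using congrArg Prod.snd e
      exact ⟨t * lt (s.1, !s.2), (norm_mul_lt _ _).trans (by omega), by omega⟩
  obtain ⟨t, a1, a2⟩ := a ρ
  refine ⟨t, by omega, Or.inr fun w hw => ?_⟩
  have b : ∀ i, i ≤ w.norm → d t ≤ d (t * pre i w) + i := fun i => by
    induction i with
    | zero => exact fun _ => by rw [pre_zero, mul_one]; rfl
    | succ i ih =>
      intro hi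
      obtain ⟨s, hs⟩ := pre_succ (Nat.lt_of_succ_le hi)
      have := h.lip (t * pre i w) s
      have := ih (by omega)
      rw [hs, ← mul_assoc]
      omega
  have := b _ le_rfl
  rw [pre_norm] at this
  omega

end Pool.Agent.P.MP_11b517_an.St
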