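import Pool.Agent.P.MP_11b517_an.St.Step
import Pool.Agent.P.MP_11b517_an.St.TreeA

/-! The model space is compact, invariant and minimal. -/

set_option autoImplicit false

namespace Pool.Agent.P.MP_11b517_an.St

open MeasureTheory Set

variable {ι Ω : Type} [DecidableEq ι] [Fintype ι] [MeasurableSpace Ω] [MulAction (FreeGroup ι) Ω]
  {μ : Measure Ω} {Q : ℕ → Cod ι} {E : ℕ → Set Ω} {s : ℕ → State Ω}

theorem gl_N (H : ∀ k, Step μ (Q k) (E k) k (s k) (s (k + 1))) {m k : ℕ} (h : m ≤ k) :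
    (s m).N ≤ (s k).N := by
  induction h with
  | refl => exact le_rfl
  | step _ ih => exact ih.trans (H _).mono

theorem gl_Gd (H : ∀ k, Step μ (Q k) (E k) k (s k) (s (k + 1))) {m k : ℕ} (h : m ≤ k) :
    (s k).Gd ⊆ (s m).Gd := by
  induction h with
  | refl => exact Subset.rfl
  | step _ ih => exact (H _).sub.trans ih

theorem gl_clean (H : ∀ k, Step μ (Q k) (E k) k (s k) (s (k + 1))) {m k : ℕ} (h : m ≤ k) {z : Ω}
    (hz : z ∉ (s k).Bad) {t : FreeGroup ι} (ht : t.norm ≤ 2 * (s (m + 1)).N) {j : ℕ} (hj : j ≤ m) :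
    (s (k + 1)).q (t⁻¹ • z) j = (s (m + 1)).q (t⁻¹ • z) j := by
  induction h with
  | refl => rfl
  | @step k h ih =>
    have h' : m ≤ k := h
    rw [(H (k + 1)).lev _ j (by omega), (H k).clean z hz t
      (ht.trans (Nat.mul_le_mul_left 2 (gl_N H (Nat.succ_le_succ h))))]
    exact ih fun hb => hz ((H k).bad hb)

theorem gl_glue (H : ∀ k, Step μ (Q k) (E k) k (s k) (s (k + 1))) {m k : ℕ} (h : m ≤ k) :
    ∀ x ∈ (s (m + 1)).Gd, Glued m (s (m + 1)) (cfg ι (s (k + 1)).q x) := by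
  induction h with
  | refl =>
    exact fun x hx => ⟨fun _ => 0, ⟨fun _ _ => Nat.zero_le _, fun _ h => absurd h (lt_irrefl 0)⟩,
      x, hx, x, hx, fun t _ j _ => rfl⟩
  | @step k h ih =>
    intro x hx
    have h' : m ≤ k := h
    have hN : (s (m + 1)).N ≤ (s (k + 1)).N := gl_N H (Nat.succ_le_succ h')
    obtain ⟨x', hx', d, hd, h1, h2⟩ := (H k).step x
    have hx'' : x' ∈ (s (m + 1)).Gd :=
      hx'.elim (fun h => gl_Gd H (Nat.succ_le_succ h') h) fun h => h ▸ hx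
    have e : ∀ t : FreeGroup ι, t.norm ≤ (s (m + 1)).N → ∀ j ≤ m,
        cfg ι (s (k + 1 + 1)).q x t j = (s (k + 1)).q (t⁻¹ • if d t = 0 then x' else x) j :=
      fun t ht j hj => by
        rw [cfg, (H (k + 1)).lev _ j (by omega), h1 t (ht.trans hN)]
    by_cases c1 : ∀ t : FreeGroup ι, t.norm ≤ (s (m + 1)).N → d t = 0
    · obtain ⟨d', k1, a, ha, b, hb, k2⟩ := ih x' hx''
      exact ⟨d', k1, a, ha, b, hb, fun t ht j hj => by
        rw [← k2 t ht j hj]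
        exact (e t ht j hj).trans (by rw [if_pos (c1 t ht)]; rfl)⟩
    by_cases c2 : ∀ t : FreeGroup ι, t.norm ≤ (s (m + 1)).N → d t ≠ 0
    · obtain ⟨d', k1, a, ha, b, hb, k2⟩ := ih x hx
      exact ⟨d', k1, a, ha, b, hb, fun t ht j hj => by
        rw [← k2 t ht j hj]
        exact (e t ht j hj).trans (by rw [if_neg (c2 t ht)]; rfl)⟩
    push Not at c1 c2
    obtain ⟨t', k1, k2⟩ := c1
    obtain ⟨t0, k3, k4⟩ := c2
    obtain ⟨u, hu, k5, k6⟩ := h2 _ hN t0 t' k3 k1 k4 k2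
    refine ⟨d, hd, x', hx'', x, hx, fun t ht j hj => (e t ht j hj).trans ?_⟩
    have k7 : (u⁻¹ * t).norm ≤ 2 * (s (m + 1)).N := (FreeGroup.norm_mul_le _ _).trans (by
      rw [FreeGroup.norm_inv_eq, two_mul]
      exact add_le_add hu ht)
    have k8 : ∀ z : Ω, u⁻¹ • z ∉ (s k).Bad →
        (s (k + 1)).q (t⁻¹ • z) j = (s (m + 1)).q (t⁻¹ • z) j := fun z hz => by
      have := gl_clean H h' hz k7 hj
      rwa [smul_smul, mul_inv_rev, inv_inv, mul_inv_cancel_right] at this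
    split_ifs
    · exact k8 _ k6
    · exact k8 _ k5

theorem gl_win {A : Set (Cfg ι)} {y : Cfg ι} (h : y ∈ closure A) (N m : ℕ) :
    ∃ y' ∈ A, ∀ t : FreeGroup ι, t.norm ≤ N → ∀ j ≤ m, y' t j = y t j := by
  have ho : IsOpen (⋂ t ∈ {t : FreeGroup ι | t.norm ≤ N}, ⋂ j ∈ Iic m,
      {y' : Cfg ι | y' t j = y t j}) :=
    (finite_ball N).isOpen_biInter fun t _ => (finite_Iic m).isOpen_biInter fun j _ =>
      (isOpen_discrete {y t j}).preimage (f := fun y' : Cfg ι => y' t j)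
        ((continuous_apply j).comp (continuous_apply t))
  obtain ⟨y', h1, h2⟩ := mem_closure_iff.1 h _ ho (by simp)
  exact ⟨y', h2, fun t ht j hj => mem_iInter₂.1 (mem_iInter₂.1 h1 t ht) j hj⟩

omit [Fintype ι] in
theorem gl_clo {A : Set (Cfg ι)} {y : Cfg ι}
    (h : ∀ n, ∃ y' ∈ A, ∀ t : FreeGroup ι, t.norm ≤ n → ∀ j ≤ n, y' t j = y t j) :
    y ∈ closure A := by
  choose f h1 h2 using h
  refine mem_closure_of_tendsto (b := Filter.atTop) (f := f) ?_ (Filter.Eventually.of_forall h1)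
  refine tendsto_pi_nhds.2 fun t => tendsto_pi_nhds.2 fun j => tendsto_const_nhds.congr' ?_
  filter_upwards [Filter.eventually_ge_atTop t.norm, Filter.eventually_ge_atTop j] with n a b
  exact (h2 n t a j b).symm

theorem YY_glued (H : ∀ k, Step μ (Q k) (E k) k (s k) (s (k + 1))) {y : Cfg ι} (hy : y ∈ YY ι s)
    (m : ℕ) : Glued m (s (m + 1)) y := by
  obtain ⟨_, ⟨k, hk, x, hx, rfl⟩, h⟩ := gl_win (mem_iInter.1 hy m) (s (m + 1)).N m
  obtain ⟨d, k1, a, ha, b, hb, k2⟩ := gl_glue H hk x (gl_Gd H (Nat.succ_le_succ hk) hx)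
  exact ⟨d, k1, a, ha, b, hb, fun t ht j hj => (h t ht j hj).symm.trans (k2 t ht j hj)⟩

theorem YY_shift (H : ∀ k, Step μ (Q k) (E k) k (s k) (s (k + 1))) {y : Cfg ι} (hy : y ∈ YY ι s)
    (g : FreeGroup ι) : (fun t => y (g * t)) ∈ YY ι s := by
  refine mem_iInter.2 fun m => map_mem_closure (f := fun (y : Cfg ι) => (fun t => y (g * t) : Cfg ι))
    (continuous_pi fun t => continuous_apply _) (mem_iInter.1 hy m) ?_
  rintro _ ⟨k, hk, x, hx, rfl⟩
  refine ⟨k, hk, g⁻¹ • x, (H k).inv _ _ hx, funext fun t => ?_⟩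
  simp only [cfg, smul_smul, mul_inv_rev]

theorem YY_compact (H : ∀ k, Step μ (Q k) (E k) k (s k) (s (k + 1))) : IsCompact (YY ι s) := by
  refine (isCompact_univ_pi (s := fun _ : FreeGroup ι => univ.pi fun j : ℕ =>
    (fun f : ℕ → ℕ => f j) '' range (s (j + 1)).q) fun _ => isCompact_univ_pi fun j =>
      ((H j).fin.image _).isCompact).of_isClosed_subset
    (isClosed_iInter fun _ => isClosed_closure) fun y hy g _ j _ => ?_
  obtain ⟨d, -, a, -, b, -, h⟩ := YY_glued H (YY_shift H hy g) j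
  have := h 1 (by simp) j le_rfl
  simp only [mul_one] at this
  exact ⟨_, ⟨_, rfl⟩, this.symm⟩

theorem YY_min [Nontrivial ι] (H : ∀ k, Step μ (Q k) (E k) k (s k) (s (k + 1))) {y y' : Cfg ι}
    (hy : y ∈ YY ι s) (hy' : y' ∈ YY ι s) :
    y ∈ closure (range fun (g : FreeGroup ι) => (fun t => y' (g * t) : Cfg ι)) := by
  refine gl_clo fun n => ?_
  obtain ⟨_, ⟨k, hk, w, hw, rfl⟩, h⟩ := gl_win (mem_iInter.1 hy n) n n
  obtain ⟨d, hd, a, ha, b, hb, h1⟩ := YY_glued H hy' (k + 1)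
  obtain ⟨t0, h2, h3⟩ := hd.side (s (k + 1)).ρ
  obtain ⟨z, hz, h4⟩ : ∃ z ∈ (s (k + 1 + 1)).Gd, ∀ u : FreeGroup ι, u.norm ≤ (s (k + 1)).ρ →
      (if d (t0 * u) = 0 then a else b) = z :=
    h3.elim (fun h => ⟨a, ha, fun u hu => if_pos (h u hu)⟩)
      fun h => ⟨b, hb, fun u hu => if_neg (h u hu)⟩
  obtain ⟨g, h5, h6⟩ := (H k).plant (t0⁻¹ • z) ((H k).inv _ _ ((H (k + 1)).sub hz)) w hw
  refine ⟨_, ⟨t0 * g, rfl⟩, fun t ht j hj => ?_⟩
  have h7 : (g * t).norm ≤ (s (k + 1)).ρ := (FreeGroup.norm_mul_le _ _).trans (by omega)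
  have h8 := (H (k + 1)).big
  have h9 := FreeGroup.norm_mul_le t0 (g * t)
  show y' (t0 * g * t) j = y t j
  rw [mul_assoc, h1 _ (by omega) j (by omega), h4 _ h7, (H (k + 1)).lev _ j (by omega),
    mul_inv_rev, mul_smul, h6 t (ht.trans hk)]
  exact h t ht j hj

end Pool.Agent.P.MP_11b517_an.St
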