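import Pool.Agent.P.MP_11b517_an.St.LC

/-! Continuous coboundary witnesses on a uniquely ergodic system. -/

set_option autoImplicit false

namespace Pool.Agent.P.MP_11b517_an.St

open MeasureTheory

variable {G X : Type} [Group G] [TopologicalSpace X] [CompactSpace X]
  [TopologicalSpace.MetrizableSpace X] [MeasurableSpace X] [BorelSpace X] [MulAction G X]
  {ν : Measure X} [IsProbabilityMeasure ν]

theorem hb_riesz (L : C(X, ℝ) →ₗ[ℝ] ℝ) (hL : ∀ a, 0 ≤ a → 0 ≤ L a) (h1 : L 1 = 1) :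
    ∃ μ : Measure X, IsProbabilityMeasure μ ∧ ∀ a : C(X, ℝ), ∫ x, a x ∂μ = L a := by
  let Λ : CompactlySupportedContinuousMap X ℝ →ₚ[ℝ] ℝ :=
    { toFun := fun g => L g.toContinuousMap
      map_add' := fun g g' => L.map_add _ _
      map_smul' := fun c g => L.map_smul c _
      monotone' := fun g g' h => by
        have h2 := hL (g'.toContinuousMap - g.toContinuousMap) fun x => sub_nonneg.2 (h x)
        rw [map_sub] at h2
        exact sub_nonneg.1 h2 }
  have h2 : ∀ a : C(X, ℝ), ∫ x, a x ∂(RealRMK.rieszMeasure Λ) = L a := fun a =>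
    RealRMK.integral_rieszMeasure Λ ⟨a, HasCompactSupport.of_compactSpace _⟩
  refine ⟨_, isProbabilityMeasure_iff_real.2 ?_, h2⟩
  simpa [h1] using h2 1

omit [TopologicalSpace.MetrizableSpace X] [MeasurableSpace X] [BorelSpace X] in
theorem hb_sep (V : Submodule ℝ C(X, ℝ)) (g : C(X, ℝ)) (h : ∀ v ∈ V, ¬ ∀ x, 0 < (g + v) x) :
    ∃ L : C(X, ℝ) →ₗ[ℝ] ℝ, (∀ a, 0 ≤ a → 0 ≤ L a) ∧ L 1 = 1 ∧ (∀ v ∈ V, L v = 0) ∧ L g ≤ 0 := by
  obtain ⟨L, u, h1, h2⟩ := geometric_hahn_banach_open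
    (s := {a : C(X, ℝ) | Set.MapsTo a Set.univ (Set.Ioi 0)}) (t := (fun v => g + v) '' V)
    (fun a ha b hb s t hs ht hst x hx => (convex_Ioi (0 : ℝ)) (ha hx) (hb hx) hs ht hst)
    (ContinuousMap.isOpen_setOfPred_mapsTo isCompact_univ isOpen_Ioi) (V.convex.translate g)
    (Set.disjoint_left.2 fun a ha ⟨v, hv, e⟩ => h v hv fun x => by
      rw [show g + v = a from e]
      exact ha (Set.mem_univ x))
  have h3 : ∀ v ∈ V, u ≤ L g + L v := fun v hv => by
    rw [← map_add]
    exact h2 _ ⟨v, hv, rfl⟩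
  have h4 : ∀ v ∈ V, L v = 0 := fun v hv => by
    by_contra e
    have := h3 _ (V.smul_mem ((u - L g - 1) / L v) hv)
    rw [map_smul, smul_eq_mul, div_mul_cancel₀ _ e] at this
    linarith
  have h5 : ∀ a : C(X, ℝ), 0 ≤ a → ∀ s t : ℝ, 0 ≤ s → 0 < t → s * L a + t * L 1 < u :=
    fun a ha s t hs ht => by
      have := h1 (s • a + t • 1) fun x _ => by
        have : 0 ≤ s * a x := mul_nonneg hs (ha x)
        change 0 < s * a x + t * 1
        linarith
      rwa [map_add, map_smul, map_smul] at this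
  have h6 : ∀ a : C(X, ℝ), 0 ≤ a → L a ≤ 0 := fun a ha => by
    by_contra e
    have e' := not_le.1 e
    have := h5 a ha (|u - L 1| / L a) 1 (div_nonneg (abs_nonneg _) e'.le) one_pos
    rw [div_mul_cancel₀ _ e'.ne'] at this
    linarith [le_abs_self (u - L 1)]
  have h7 := h3 0 V.zero_mem
  rw [map_zero, add_zero] at h7
  have h8 : L 1 < 0 := by
    refine lt_of_le_of_ne (h6 1 zero_le_one) fun e => ?_
    have a1 := h5 0 le_rfl 0 1 le_rfl one_pos
    have a2 := h6 (g + ‖g‖ • 1) fun x => by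
      have := neg_abs_le (g x)
      have : |g x| ≤ ‖g‖ := g.norm_coe_le_norm x
      change 0 ≤ g x + ‖g‖ * 1
      linarith
    rw [map_add, map_smul, e, smul_zero] at a2
    rw [e] at a1
    linarith
  have h9 : 0 ≤ u := by
    by_contra e
    have := h5 0 le_rfl 0 (u / L 1) le_rfl (div_pos_of_neg_of_neg (not_le.1 e) h8)
    rw [div_mul_cancel₀ _ h8.ne] at this
    linarith
  exact ⟨(L 1)⁻¹ • L.toLinearMap,
    fun a ha => mul_nonneg_of_nonpos_of_nonpos (inv_nonpos.2 h8.le) (h6 a ha),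
    inv_mul_cancel₀ h8.ne, fun v hv => mul_eq_zero_of_right _ (h4 v hv),
    mul_nonpos_of_nonpos_of_nonneg (inv_nonpos.2 h8.le) (h9.trans h7)⟩

theorem cont_wit (hc : ∀ g : G, Continuous fun x : X => g • x)
    (hν : ∀ g : G, Measure.map (fun x : X => g • x) ν = ν)
    (hu : ∀ ν' : Measure X, IsProbabilityMeasure ν' →
      (∀ g : G, Measure.map (fun x : X => g • x) ν' = ν') → ν' = ν)
    {f : X → ℝ} (hf : Continuous f) {ε : ℝ} (hε : 0 < ε) :
    ∃ (S : Finset G) (h : G → X → ℝ), (∀ s, Continuous (h s)) ∧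
      ∀ x, f x ≤ ∫ z, f z ∂ν + ε + ∑ s ∈ S, (h s (s⁻¹ • x) - h s x) := by
  let T : G → C(X, ℝ) →ₗ[ℝ] C(X, ℝ) := fun s =>
    { toFun := fun u => u.comp ⟨_, hc s⁻¹⟩ - u
      map_add' := fun u v => by ext x; simp; ring
      map_smul' := fun c u => by ext x; simp; ring }
  by_contra hn
  obtain ⟨L, h1, h2, h3, h4⟩ := hb_sep (LinearMap.range (Finsupp.lsum ℝ T))
    (ContinuousMap.const X (∫ z, f z ∂ν + ε) - ⟨f, hf⟩) (by
      rintro _ ⟨h, rfl⟩ h5
      refine hn ⟨h.support, fun s => h s, fun s => (h s).continuous, fun x => ?_⟩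
      have h6 := h5 x
      simp only [Finsupp.coe_lsum, Finsupp.sum, ContinuousMap.add_apply, ContinuousMap.sub_apply,
        ContinuousMap.const_apply, ContinuousMap.coe_mk, ContinuousMap.sum_apply, T,
        LinearMap.coe_mk, AddHom.coe_mk, ContinuousMap.comp_apply] at h6
      linarith)
  obtain ⟨μ, hμ, h5⟩ := hb_riesz L h1 h2
  obtain rfl := hu μ hμ fun g => by
    have := Measure.isProbabilityMeasure_map (μ := μ) (hc g).measurable.aemeasurable
    refine ext_of_forall_integral_eq_of_IsFiniteMeasure fun u => ?_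
    have h6 := h3 _ ⟨Finsupp.single g⁻¹ u.toContinuousMap, rfl⟩
    rw [Finsupp.lsum_single] at h6
    simp only [T, LinearMap.coe_mk, AddHom.coe_mk, inv_inv] at h6
    rw [map_sub, ← h5, ← h5] at h6
    rw [integral_map (hc g).measurable.aemeasurable u.continuous.aestronglyMeasurable]
    exact sub_eq_zero.1 h6
  rw [map_sub, ← h5, ← h5] at h4
  simp only [ContinuousMap.const_apply, integral_const, probReal_univ, one_smul,
    ContinuousMap.coe_mk] at h4
  linarith

end Pool.Agent.P.MP_11b517_an.St
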