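import Pool.Agent.P.MP_11b517_an.St.Defs

/-! Functions that are locally constant at almost every point. -/

set_option autoImplicit false

namespace Pool.Agent.P.MP_11b517_an.St

open MeasureTheory Filter Topology

variable {Ω β γ : Type} [MeasurableSpace Ω] [TopologicalSpace Ω] {μ : Measure Ω}

/-- Locally constant at almost every point. -/
def LC (μ : Measure Ω) (f : Ω → β) : Prop := ∀ᵐ x ∂μ, ∀ᶠ z in 𝓝 x, f z = f x

theorem LC.const (b : β) : LC μ fun _ : Ω => b := .of_forall fun _ => .of_forall fun _ => rfl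

theorem LC.det {f : Ω → β} {g : Ω → γ} (h : LC μ f) (k : ∀ x z, f x = f z → g x = g z) : LC μ g :=
  Eventually.mono h fun x hx => hx.mono fun z hz => k z x hz

theorem LC.prod {f : Ω → β} {g : Ω → γ} (h : LC μ f) (k : LC μ g) : LC μ fun x => (f x, g x) :=
  (Eventually.and h k).mono fun _ hx => (hx.1.and hx.2).mono fun _ hz => Prod.ext hz.1 hz.2

theorem LC.pi {κ : Type} [Finite κ] {f : κ → Ω → β} (h : ∀ i, LC μ (f i)) :
    LC μ fun x i => f i x :=
  (eventually_all.2 h).mono fun _ hx => (eventually_all.2 hx).mono fun _ hz => funext hz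

theorem LC.comp {f : Ω → β} (h : LC μ f) {T : Ω → Ω} (hT : MeasurePreserving T μ μ)
    (hc : Continuous T) : LC μ fun x => f (T x) :=
  (hT.quasiMeasurePreserving.ae h).mono fun x hx => (hc.tendsto x).eventually hx

end Pool.Agent.P.MP_11b517_an.St
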