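import Pool.Agent.P.MP_11b517_an.St.Defs

/-! The random walk spends bounded time near the boundary of a subtree. -/

set_option autoImplicit false

namespace Pool.Agent.P.MP_11b517_an.St

variable {ι : Type} [DecidableEq ι]

namespace TreeB

theorem norm_lt_mul (s : ι × Bool) (u : FreeGroup ι) : (lt s * u).norm ≤ u.norm + 1 := by
  have h1 := FreeGroup.norm_mul_le (lt s) u
  have h2 : (lt s).norm ≤ 1 := FreeGroup.norm_mk_le (L₁ := [s])
  omega

theorem first {u : FreeGroup ι} {j : ℕ} (h : u.norm ≤ j + 1) :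
    u = 1 ∨ ∃ s u', u = lt s * u' ∧ u'.norm ≤ j := by
  have h1 := FreeGroup.mk_toWord (x := u)
  unfold FreeGroup.norm at h
  rcases hw : u.toWord with _ | ⟨s, w⟩
  · exact Or.inl (FreeGroup.toWord_eq_nil_iff.1 hw)
  · rw [hw] at h h1
    refine Or.inr ⟨s, FreeGroup.mk w, by rw [← h1, lt, FreeGroup.mul_mk]; rfl, ?_⟩
    have := FreeGroup.norm_mk_le (L₁ := w)
    simp only [List.length_cons] at h
    omega

omit [DecidableEq ι] in
theorem lt_inv (s : ι × Bool) : lt s * lt (s.1, !s.2) = 1 := by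
  have : lt (s.1, !s.2) = (lt s)⁻¹ := by
    rw [lt, lt, FreeGroup.inv_mk]; rfl
  rw [this, mul_inv_cancel]

/-- Boundary vertices. -/
def Bd (d : FreeGroup ι → ℕ) (t : FreeGroup ι) : Prop := d t = 0 ∧ ∃ s, d (t * lt s) ≠ 0

theorem same (d : FreeGroup ι → ℕ) (j : ℕ) : ∀ t : FreeGroup ι,
    (∀ u : FreeGroup ι, u.norm ≤ j → ¬Bd d (t * u)) →
    ∀ u : FreeGroup ι, u.norm ≤ j → (d (t * u) = 0 ↔ d t = 0) := by
  induction j with
  | zero =>
    intro t _ u hu
    rw [FreeGroup.norm_eq_zero.1 (Nat.le_zero.1 hu), mul_one]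
  | succ j ih =>
    intro t h u hu
    obtain rfl | ⟨s, u', rfl, hu'⟩ := first hu
    · rw [mul_one]
    have h1 : ∀ w : FreeGroup ι, w.norm ≤ j → ¬Bd d (t * lt s * w) := fun w hw => by
      rw [mul_assoc]
      exact h _ ((norm_lt_mul s w).trans (by omega))
    rw [← mul_assoc, ih _ h1 u' hu']
    have h2 := h1 1 (by simp)
    have h3 := h 1 (by simp)
    simp only [mul_one, Bd, not_and, not_exists, not_not] at h2 h3
    refine ⟨fun a => ?_, fun a => h3 a s⟩
    have := h2 a (s.1, !s.2)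
    rwa [mul_assoc, lt_inv, mul_one] at this

theorem near {d : FreeGroup ι → ℕ} {v : ℕ} {t : FreeGroup ι} (h : ¬Side d v t) :
    ∃ u : FreeGroup ι, u.norm ≤ v ∧ Bd d (t * u) := by
  by_contra hn
  push Not at hn
  have := same d v t hn
  by_cases h0 : d t = 0
  · exact h (Or.inl fun u hu => (this u hu).2 h0)
  · exact h (Or.inr fun u hu a => h0 ((this u hu).1 a))

variable [Fintype ι] [Nontrivial ι]

omit [DecidableEq ι] in
theorem four_le : (4 : ℝ) ≤ Fintype.card (ι × Bool) := by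
  have : 2 ≤ Fintype.card ι := Fintype.one_lt_card
  have h : 4 ≤ Fintype.card (ι × Bool) := by
    rw [Fintype.card_prod, Fintype.card_bool]; omega
  exact_mod_cast h

theorem sum_le_one {f : ι × Bool → ℝ} {a b : ℝ} (s₀ : ι × Bool) (h0 : f s₀ ≤ a)
    (h : ∀ s, s ≠ s₀ → f s ≤ b) : ∑ s, f s ≤ a + (Fintype.card (ι × Bool) - 1) * b := by
  rw [← Finset.add_sum_erase _ _ (Finset.mem_univ s₀)]
  have h1 := Finset.sum_le_card_nsmul (Finset.univ.erase s₀) f b
    fun s hs => h s (Finset.ne_of_mem_erase hs)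
  rw [Finset.card_erase_of_mem (Finset.mem_univ _), Finset.card_univ, nsmul_eq_mul,
    Nat.cast_pred Fintype.card_pos] at h1
  linarith

theorem potential (j : ℕ) : ∃ C : ℝ, 0 ≤ C ∧ ∀ d : FreeGroup ι → ℕ, Scar d →
    ∃ Φ : FreeGroup ι → ℝ, (∀ t, 0 ≤ Φ t) ∧ (∀ t, Φ t ≤ C) ∧ (∀ t, walk Φ t ≤ Φ t) ∧
      ∀ t u : FreeGroup ι, u.norm ≤ j → Bd d (t * u) → walk Φ t + 1 ≤ Φ t := by
  have hc := four_le (ι := ι)
  obtain ⟨c, hcd⟩ : ∃ c : ℝ, c = (Fintype.card (ι × Bool) : ℝ) := ⟨_, rfl⟩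
  rw [← hcd] at hc
  have hc0 : 0 < c := by linarith
  induction j with
  | zero =>
    refine ⟨2 * c, by positivity, fun d hd => ⟨fun t => 2 * c * (1 / 2) ^ d t,
      fun t => by positivity, fun t => ?_, fun t => ?_, fun t u hu hb => ?_⟩⟩
    · exact mul_le_of_le_one_right (by positivity) (pow_le_one₀ (by norm_num) (by norm_num))
    · have hm : ∀ a b : ℕ, a ≤ b → ((1 : ℝ) / 2) ^ b ≤ (1 / 2) ^ a := fun a b h =>
        pow_le_pow_of_le_one (by norm_num) (by norm_num) h
      rw [walk, ← hcd, div_le_iff₀ hc0, ← Finset.mul_sum, mul_assoc (2 * c)]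
      refine mul_le_mul_of_nonneg_left ?_ (by positivity)
      rcases Nat.eq_zero_or_pos (d t) with h0 | h0
      · have := Finset.sum_le_card_nsmul Finset.univ (fun s => ((1 : ℝ) / 2) ^ d (t * lt s)) 1
          fun s _ => hm 0 _ (Nat.zero_le _)
        simpa [h0, hcd] using this
      · obtain ⟨s₀, h1⟩ := hd.out t h0
        have h2 := sum_le_one (f := fun s => ((1 : ℝ) / 2) ^ d (t * lt s))
          (a := 2 * (1 / 2) ^ d t) (b := (1 / 2) ^ (d t + 1)) s₀
          (by have := hm _ _ (hd.lip t s₀); rw [pow_succ] at this; linarith)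
          fun s hs => hm _ _ (h1 s hs)
        rw [pow_succ, ← hcd] at h2
        have h3 : (0 : ℝ) < (1 / 2) ^ d t := by positivity
        nlinarith
    · rw [FreeGroup.norm_eq_zero.1 (Nat.le_zero.1 hu), mul_one] at hb
      obtain ⟨h0, s₀, h1⟩ := hb
      have h2 := sum_le_one (f := fun s => ((1 : ℝ) / 2) ^ d (t * lt s))
        (a := (1 / 2) ^ 1) (b := 1) s₀
        (pow_le_pow_of_le_one (by norm_num) (by norm_num) (Nat.one_le_iff_ne_zero.2 h1))
        fun s _ => pow_le_one₀ (by norm_num) (by norm_num)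
      rw [← hcd] at h2
      dsimp only
      rw [walk, ← hcd, ← Finset.mul_sum, h0, mul_right_comm 2 c, mul_div_cancel_right₀ _ hc0.ne']
      linarith
  | succ j ih =>
    obtain ⟨C, hC, ih⟩ := ih
    refine ⟨C + c * C, by positivity, fun d hd => ?_⟩
    obtain ⟨Φ, h0, h1, h2, h3⟩ := ih d hd
    have hw : ∀ t, c * walk Φ t = ∑ s, Φ (t * lt s) := fun t => by
      rw [walk, ← hcd]; field_simp
    have hk : ∀ t, Φ t + c * walk Φ t - walk (fun t => Φ t + c * walk Φ t) t =
        Φ t - walk Φ t + ∑ s, (Φ (t * lt s) - walk Φ (t * lt s)) := fun t => by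
      rw [Finset.sum_sub_distrib, ← hw, walk.eq_1 (fun t => Φ t + c * walk Φ t),
        Finset.sum_add_distrib, ← Finset.mul_sum, ← hw, ← hcd]
      field_simp
      ring
    have hs : ∀ t, 0 ≤ ∑ s, (Φ (t * lt s) - walk Φ (t * lt s)) := fun t =>
      Finset.sum_nonneg fun s _ => sub_nonneg.2 (h2 _)
    refine ⟨fun t => Φ t + c * walk Φ t, fun t => ?_, fun t => ?_, fun t => ?_,
      fun t u hu hb => ?_⟩
    · have := h0 t
      dsimp only
      rw [hw]
      exact add_nonneg this (Finset.sum_nonneg fun s _ => h0 _)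
    · exact add_le_add (h1 t) (mul_le_mul_of_nonneg_left ((h2 t).trans (h1 t)) hc0.le)
    · linarith [hk t, hs t, h2 t]
    · obtain rfl | ⟨s, u', rfl, hu'⟩ := first hu
      · linarith [hk t, hs t, h3 t 1 (by simp) hb]
      · have a1 := h3 (t * lt s) u' hu' (by rwa [mul_assoc])
        have a2 := Finset.single_le_sum (f := fun s => Φ (t * lt s) - walk Φ (t * lt s))
          (fun s _ => sub_nonneg.2 (h2 _)) (Finset.mem_univ s)
        linarith [hk t, h2 t]

theorem tele {Ψ r : FreeGroup ι → ℝ} (h0 : ∀ t, 0 ≤ Ψ t) (N : ℕ) : ∀ t : FreeGroup ι,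
    (∀ u : FreeGroup ι, u.norm ≤ N → r (t * u) + walk Ψ (t * u) ≤ Ψ (t * u)) →
    ∑ l ∈ Finset.range N, walk^[l] r t ≤ Ψ t := by
  induction N with
  | zero => intro t _; simpa using h0 t
  | succ N ih =>
    intro t h
    have hc := four_le (ι := ι)
    rw [Finset.sum_range_succ']
    simp only [Function.iterate_succ_apply', Function.iterate_zero, id]
    have h1 : ∑ l ∈ Finset.range N, walk (walk^[l] r) t ≤ walk Ψ t := by
      simp only [walk]
      rw [← Finset.sum_div, Finset.sum_comm]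
      refine div_le_div_of_nonneg_right (Finset.sum_le_sum fun s _ => ih _ fun u hu => ?_)
        (by linarith)
      rw [mul_assoc]
      exact h _ ((norm_lt_mul s u).trans (by omega))
    have h2 := h 1 (by simp)
    rw [mul_one] at h2
    linarith

end TreeB

theorem walk_bound [Fintype ι] [Nontrivial ι] (v : ℕ) : ∃ C : ℝ, 0 ≤ C ∧
    ∀ (d : FreeGroup ι → ℕ) (N : ℕ) (K : ℝ) (r : FreeGroup ι → ℝ), Scar d → 0 ≤ K →
      (∀ t : FreeGroup ι, t.norm ≤ N → r t ≤ K) → (∀ t : FreeGroup ι, t.norm ≤ N → Side d v t → r t ≤ 0) →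
        ∑ l ∈ Finset.range N, walk^[l] r 1 ≤ C * K := by
  obtain ⟨C, hC, h⟩ := TreeB.potential (ι := ι) v
  refine ⟨C, hC, fun d N K r hd hK h1 h2 => ?_⟩
  obtain ⟨Φ, a0, a1, a2, a3⟩ := h d hd
  refine (TreeB.tele (Ψ := fun t => Φ t * K) (fun t => mul_nonneg (a0 t) hK) N 1
    fun u hu => ?_).trans (mul_le_mul_of_nonneg_right (a1 1) hK)
  have e : walk (fun t => Φ t * K) u = walk Φ u * K := by
    simp only [walk]
    rw [← Finset.sum_mul, div_mul_eq_mul_div]
  rw [one_mul, e]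
  by_cases hs : Side d v u
  · linarith [h2 u hu hs, mul_le_mul_of_nonneg_right (a2 u) hK]
  · obtain ⟨w, b1, b2⟩ := TreeB.near hs
    linarith [h1 u hu, mul_le_mul_of_nonneg_right (a3 u w b1 b2) hK]

end Pool.Agent.P.MP_11b517_an.St
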