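import Pool.Agent.P.MP_11b517_an.St.Step
import Pool.Agent.P.MP_11b517_an.St.TreeA
import Pool.Agent.P.MP_11b517_an.St.TreeB
import Pool.Agent.P.MP_11b517_an.St.LC

/-! The new level of labels, its rule and its patterns. -/

set_option autoImplicit false
set_option linter.unusedSectionVars false

namespace Pool.Agent.P.MP_11b517_an.St

open MeasureTheory Set

variable {ι Ω : Type} [DecidableEq ι] [Fintype ι] [MeasurableSpace Ω] [MulAction (FreeGroup ι) Ω]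
  {μ : Measure Ω} [IsProbabilityMeasure μ]

theorem cyl_congr {Q : Cod ι} {y y' : Cfg ι} (h : ∀ c ∈ Q.1, y c.1 c.2.1 = y' c.1 c.2.1) :
    y ∈ Cyl Q ↔ y' ∈ Cyl Q :=
  iff_congr (forall₂_congr fun c hc => by rw [h c hc]) Iff.rfl

theorem level [TopologicalSpace Ω]
    (hmp : ∀ g : FreeGroup ι, MeasurePreserving (fun x : Ω => g • x) μ μ)
    (hc : ∀ g : FreeGroup ι, Continuous fun x : Ω => g • x)
    (hS : ∀ (A : Set Ω) (ε : ℝ), LC μ (· ∈ A) → 0 < ε → ∃ (S : Finset (FreeGroup ι)) (a : ℝ) (B : ℕ)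
      (h : FreeGroup ι → Ω → ℤ), 0 ≤ a ∧ (∀ s, Measurable (h s)) ∧ (∀ s x, |h s x| ≤ B) ∧
        (∀ s, LC μ (h s)) ∧ ∀ x, A.indicator (1 : Ω → ℝ) x ≤
          μ.real A + ε + a * ∑ s ∈ S, ((h s (s⁻¹ • x) : ℝ) - h s x))
    {p : Ω → ℕ → ℕ} (hp : Measurable p) (hf : (range p).Finite) (hl : LC μ p)
    (Q : Cod ι) {E : Set Ω} (hE : MeasurableSet E) (lE : LC μ (· ∈ E)) {c : Ω → ℕ}
    (c1 : Measurable c) (c2 : (range c).Finite) (c3 : LC μ c) (k : ℕ) {ε : ℝ} (hε : 0 < ε) :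
    ∃ (q : Ω → ℕ → ℕ) (S : Finset (FreeGroup ι)) (w : ℕ → FreeGroup ι → ℝ) (B : ℝ),
      (∀ x j, j ≠ k → q x j = p x j) ∧ Measurable q ∧ (range q).Finite ∧ LC μ q ∧
      (∀ x x', q x k = q x' k → (x ∈ E ↔ x' ∈ E) ∧ c x = c x') ∧ (∀ a g, |w a g| ≤ B) ∧
      ∀ x, (∀ c ∈ Q.1, c.2.1 < k) →
        defect S (Cyl Q) k w (μ.real {x | cfg ι q x ∈ Cyl Q} + ε) (cfg ι q x) ≤ 0 := by
  classical
  obtain ⟨S, a, B, h, a0, hm, hB, lh, hae⟩ := hS (cfg ι p ⁻¹' Cyl Q) ε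
    ((LC.pi fun c : Q.1 => hl.comp (hmp c.1.1⁻¹) (hc _)).det fun x z e => propext
      (cyl_congr fun c hc => congrFun (congrFun e ⟨c, hc⟩) _)) hε
  obtain ⟨e, he⟩ := exists_injective_nat ((ℤ × (S → ℤ)) × ℕ)
  let u : Ω → (ℤ × (S → ℤ)) × ℕ := fun x => ((E.indicator 1 x, fun s => h s x), c x)
  have um : Measurable u := ((measurable_one.indicator hE).prodMk
    (measurable_pi_lambda (fun x (s : S) => h s x) fun s => hm s)).prodMk c1
  have ul : LC μ u := (((lE.det (g := E.indicator (1 : Ω → ℤ)) fun x z e => by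
    simp only [indicator, e, Pi.one_apply]).prod (LC.pi fun s : S => lh s))).prod c3
  have uf : (range u).Finite := by
    refine ((Set.finite_Icc ((0, fun _ => -B) : ℤ × (S → ℤ)) (1, fun _ => B)).prod c2).subset ?_
    rintro _ ⟨x, rfl⟩
    refine ⟨⟨⟨?_, fun s => (abs_le.1 (hB s x)).1⟩, ?_, fun s => (abs_le.1 (hB s x)).2⟩, x, rfl⟩ <;>
      by_cases hx : x ∈ E <;> simp [u, hx]
  let w : ℕ → FreeGroup ι → ℝ := fun n g =>
    if hn : ∃ x, e (u x) = n then a * h g hn.choose else 0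
  have hw : ∀ x, ∀ s ∈ S, w (e (u x)) s = a * h s x := fun x s hs => by
    have hn : ∃ z, e (u z) = e (u x) := ⟨x, rfl⟩
    have := congrFun (congrArg (fun b => b.1.2) (he hn.choose_spec)) ⟨s, hs⟩
    simp only [w, dif_pos hn]
    exact congrArg (fun z : ℤ => a * (z : ℝ)) this
  refine ⟨fun x => Function.update (p x) k (e (u x)), S, w, a * B,
    fun x j hj => Function.update_of_ne hj _ _, ?_, ?_, (hl.prod ul).det fun x z e => ?_,
    fun x x' hx => ?_, fun n g => ?_, fun x hl => ?_⟩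
  · exact measurable_update'.comp (hp.prodMk ((measurable_of_countable e).comp um))
  · refine (hf.image2 (fun b c => Function.update b k (e c)) uf).subset ?_
    rintro _ ⟨x, rfl⟩
    exact ⟨_, ⟨x, rfl⟩, _, ⟨x, rfl⟩, rfl⟩
  · rw [show p x = p z from (Prod.ext_iff.1 e).1, show u x = u z from (Prod.ext_iff.1 e).2]
  · simp only [Function.update_self] at hx
    have := congrArg (fun b => b.1.1) (he hx)
    refine ⟨?_, congrArg Prod.snd (he hx)⟩
    by_cases h1 : x ∈ E <;> by_cases h2 : x' ∈ E <;> simp_all [u]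
  · simp only [w]
    split_ifs with hn
    · rw [abs_mul, abs_of_nonneg a0]
      exact mul_le_mul_of_nonneg_left (by exact_mod_cast hB g _) a0
    · rw [abs_zero]; positivity
  · have hx := hae x
    have e1 : ∀ z, cfg ι (fun x => Function.update (p x) k (e (u x))) z ∈ Cyl Q ↔
        cfg ι p z ∈ Cyl Q := fun z =>
      cyl_congr fun c hc => Function.update_of_ne (hl c hc).ne _ _
    have e2 : (Cyl Q).indicator (1 : Cfg ι → ℝ)
        (cfg ι (fun x => Function.update (p x) k (e (u x))) x) =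
          (cfg ι p ⁻¹' Cyl Q).indicator (1 : Ω → ℝ) x := by
      simp only [indicator, e1, mem_preimage, Pi.one_apply]
    simp only [defect, e1, e2]
    simp only [cfg, Function.update_self, inv_one, one_smul]
    rw [Finset.sum_congr rfl fun s hs => by rw [hw _ s hs, hw _ s hs, ← mul_sub], ← Finset.mul_sum]
    have : μ.real (cfg ι p ⁻¹' Cyl Q) = μ.real {x | cfg ι p x ∈ Cyl Q} := rfl
    rw [this] at hx
    linarith

theorem rule_of [Nontrivial ι] (S : Finset (FreeGroup ι)) (Q : Cod ι) (k : ℕ)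
    {w : ℕ → FreeGroup ι → ℝ} {B c ε : ℝ} (hB : ∀ a g, |w a g| ≤ B) (hc : 0 ≤ c) (hε : 0 < ε) :
    ∃ N T : ℕ, 0 < T ∧ ∀ s : State Ω, N ≤ s.N → (∀ (g : FreeGroup ι) x, x ∈ s.Gd → g • x ∈ s.Gd) →
      (∀ x ∈ s.Gd, defect S (Cyl Q) k w c (cfg ι s.q x) ≤ 0) → (∀ c ∈ Q.1, c.2.1 < k) →
      ∀ y : Cfg ι, Glued k s y → ∑ l ∈ Finset.range T,
        walk^[l] (fun t => defect S (Cyl Q) k w c fun g => y (t * g)) 1 ≤ T * ε := by
  classical
  obtain ⟨v, v1, v2⟩ : ∃ v : ℕ, (∀ s ∈ S, s.norm ≤ v) ∧ ∀ c ∈ Q.1, c.1.norm ≤ v :=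
    ⟨max (S.sup FreeGroup.norm) (Q.1.sup fun c => c.1.norm),
      fun s hs => le_max_of_le_left (Finset.le_sup hs),
      fun c hc => le_max_of_le_right (Finset.le_sup (f := fun c => c.1.norm) hc)⟩
  obtain ⟨C, C0, hC⟩ := walk_bound (ι := ι) v
  have B0 : 0 ≤ B := (abs_nonneg _).trans (hB 0 1)
  obtain ⟨T, hT⟩ := exists_nat_ge (C * (1 + S.card * (2 * B)) / ε)
  refine ⟨T + 1 + v, T + 1, T.succ_pos, fun s hN inv hr hl y ⟨d, hd, x', hx', x'', hx'', hy⟩ => ?_⟩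
  refine (hC d (T + 1) (1 + S.card * (2 * B)) _ hd (by positivity) (fun t _ => ?_)
    fun t ht hs => ?_).trans ?_
  · have h1 : (Cyl Q).indicator (1 : Cfg ι → ℝ) (fun g => y (t * g)) ≤ 1 :=
      indicator_le_self' (fun _ _ => zero_le_one) _
    have h2 := Finset.card_nsmul_le_sum S (fun s => w (y (t * s) k) s - w (y (t * 1) k) s)
      (-(2 * B)) fun s _ => by
        linarith [abs_le.1 (hB (y (t * s) k) s), abs_le.1 (hB (y (t * 1) k) s)]
    simp only [defect]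
    rw [nsmul_eq_mul] at h2
    linarith
  · obtain ⟨z, hz, e⟩ : ∃ z ∈ s.Gd, ∀ u : FreeGroup ι, u.norm ≤ v → ∀ j ≤ k,
        y (t * u) j = cfg ι s.q (t⁻¹ • z) u j := by
      have n : ∀ u : FreeGroup ι, u.norm ≤ v → (t * u).norm ≤ s.N := fun u hu =>
        (FreeGroup.norm_mul_le _ _).trans (by omega)
      rcases hs with hs | hs
      · exact ⟨x', hx', fun u hu j hj => by
          rw [hy _ (n u hu) j hj, if_pos (hs u hu), mul_inv_rev, mul_smul]; rfl⟩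
      · exact ⟨x'', hx'', fun u hu j hj => by
          rw [hy _ (n u hu) j hj, if_neg (hs u hu), mul_inv_rev, mul_smul]; rfl⟩
    refine le_of_eq_of_le ?_ (hr _ (inv t⁻¹ z hz))
    have e1 : (fun g => y (t * g)) ∈ Cyl Q ↔ cfg ι s.q (t⁻¹ • z) ∈ Cyl Q :=
      cyl_congr fun c hc => e _ (v2 c hc) _ (hl c hc).le
    simp only [defect, indicator, e1, Pi.one_apply]
    rw [Finset.sum_congr rfl fun s hs => by
      rw [e s (v1 s hs) k le_rfl, e 1 (by simp) k le_rfl]]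
  · rw [div_le_iff₀ hε] at hT
    push_cast
    nlinarith

theorem patterns (hits : ∀ A : Set Ω, MeasurableSet A → μ A ≠ 0 →
      ∀ᵐ x ∂μ, ∃ g : FreeGroup ι, g⁻¹ • x ∈ A) {β : Type} {π : Ω → β} (hf : (range π).Finite)
    (hm : ∀ b, MeasurableSet (π ⁻¹' {b})) : (∀ᵐ x ∂μ, μ (π ⁻¹' {π x}) ≠ 0) ∧
      ∀ T : Set Ω, (∀ᵐ x ∂μ, x ∈ T) → ∃ x₀ ∈ T, ∃ R : ℕ, ∀ w, μ (π ⁻¹' {π w}) ≠ 0 →
        ∃ g : FreeGroup ι, g.norm ≤ R ∧ π (g⁻¹ • x₀) = π w := by
  classical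
  refine ⟨?_, fun T hT => ?_⟩
  · have : ∀ᵐ x ∂μ, ∀ b ∈ range π, μ (π ⁻¹' {b}) = 0 → x ∉ π ⁻¹' {b} :=
      (ae_ball_iff hf.countable).2 fun b _ => by
        by_cases h : μ (π ⁻¹' {b}) = 0
        · exact (measure_eq_zero_iff_ae_notMem.1 h).mono fun x hx _ => hx
        · exact Filter.Eventually.of_forall fun x h' => absurd h' h
    exact this.mono fun x hx h => hx _ ⟨x, rfl⟩ h rfl
  · have : ∀ᵐ x ∂μ, ∀ b ∈ range π, ∃ g : FreeGroup ι, μ (π ⁻¹' {b}) ≠ 0 → g⁻¹ • x ∈ π ⁻¹' {b} :=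
      (ae_ball_iff hf.countable).2 fun b _ => by
        by_cases h : μ (π ⁻¹' {b}) = 0
        · exact Filter.Eventually.of_forall fun x => ⟨1, fun h' => absurd h h'⟩
        · exact (hits _ (hm b) h).mono fun x hx => hx.imp fun g k _ => k
    obtain ⟨x₀, h1, h2⟩ := (hT.and this).exists
    choose! g hg using h2
    exact ⟨x₀, h1, hf.toFinset.sup fun b => (g b).norm, fun w hw => ⟨g (π w),
      Finset.le_sup (f := fun b => (g b).norm) (hf.mem_toFinset.2 ⟨w, rfl⟩), hg _ ⟨w, rfl⟩ hw⟩⟩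

end Pool.Agent.P.MP_11b517_an.St
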