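import Pool.Agent.P.MP_11b517_an.St.LC
import Pool.Agent.P.MP_11b517_an.St.TreeA

/-! Markers and colourings with null boundary. -/

set_option autoImplicit false

namespace Pool.Agent.P.MP_11b517_an.St

open MeasureTheory

variable {ι Ω : Type} [DecidableEq ι] [Finite ι] [MeasurableSpace Ω] [TopologicalSpace Ω]
  [MulAction (FreeGroup ι) Ω] {μ : Measure Ω} [IsProbabilityMeasure μ] {U : ℕ → Set Ω}

/-- The greedy union of independent sets. -/
def greedyL {G X : Type} [Group G] [MulAction G X] (B : Set G) (A : ℕ → Set X) : ℕ → Set X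
  | 0 => ∅
  | j + 1 => greedyL B A j ∪ (A j \ ⋃ t : B, (fun x : X => (t : G) • x) ⁻¹' greedyL B A j)

theorem lc_marker_gen {G X : Type} [Group G] [MulAction G X] [MeasurableSpace X]
    [TopologicalSpace X] {ν : Measure X} {S : ℕ → Set X}
    (hmp : ∀ g : G, MeasurePreserving (fun x : X => g • x) ν ν)
    (hc : ∀ g : G, Continuous fun x : X => g • x) (hfr : ∀ g : G, g ≠ 1 → ν {x : X | g • x = x} = 0)
    (hS : ∀ n, MeasurableSet (S n)) (lS : ∀ n, LC ν (· ∈ S n))
    (hsep : ∀ x y, (∀ n, x ∈ S n ↔ y ∈ S n) → x = y) {D : Set X} (D1 : MeasurableSet D)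
    (D2 : LC ν (· ∈ D)) {B : Set G} (hB : B.Finite) (h1 : (1 : G) ∈ B) (hi : ∀ t ∈ B, t⁻¹ ∈ B) :
    ∃ M : Set X, M ⊆ D ∧ MeasurableSet M ∧ LC ν (· ∈ M) ∧
      (∀ t ∈ B, t ≠ 1 → ∀ x ∈ M, t • x ∉ M) ∧
      ∀ x ∈ D, (∀ g ∈ B, g ≠ 1 → g • x ≠ x) → ∃ t ∈ B, t • x ∈ M := by
  have : Finite B := hB
  have hm : ∀ g : G, Measurable fun x : X => g • x := fun g => (hmp g).measurable
  let V : ℕ × Bool → Set X := fun p => bif p.2 then S p.1 else (S p.1)ᶜ
  have hV : ∀ p, MeasurableSet (V p) := by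
    rintro ⟨i, _ | _⟩
    · exact (hS i).compl
    · exact hS i
  have lV : ∀ p, LC ν (· ∈ V p) := by
    rintro ⟨i, _ | _⟩
    · exact (lS i).det fun x z h => congrArg Not h
    · exact lS i
  have hVs : ∀ x y : X, y ≠ x → ∃ p, x ∈ V p ∧ y ∉ V p := by
    intro x y hxy
    by_contra hc
    refine hxy (hsep y x fun i => ⟨fun h => ?_, fun h => ?_⟩)
    · by_contra h'
      exact hc ⟨(i, false), h', fun h'' => h'' h⟩
    · by_contra h'
      exact hc ⟨(i, true), h, h'⟩
  obtain ⟨e, he⟩ := exists_surjective_nat (B → ℕ × Bool)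
  let A : ℕ → Set X := fun j => D ∩ ⋂ t : B, ⋂ _ : (t : G) ≠ 1,
    V (e j t) \ (fun x : X => (t : G) • x) ⁻¹' V (e j t)
  have hA : ∀ j, MeasurableSet (A j) := fun j => D1.inter <|
    MeasurableSet.iInter fun t => MeasurableSet.iInter fun _ => (hV _).diff (hm _ (hV _))
  have mA : ∀ j x, x ∈ A j ↔
      x ∈ D ∧ ∀ t : B, (t : G) ≠ 1 → x ∈ V (e j t) ∧ (t : G) • x ∉ V (e j t) := by
    intro j x
    simp only [A, Set.mem_inter_iff, Set.mem_iInter, Set.mem_sdiff, Set.mem_preimage]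
  have lA : ∀ j, LC ν (· ∈ A j) := fun j =>
    (D2.prod (LC.pi fun t : B => (lV (e j t)).prod ((lV (e j t)).comp (hmp t) (hc t)))).det
      fun x z h => by
        have h1 := congrArg Prod.fst h
        have h2 := fun t => congrArg Prod.fst (congrFun (congrArg Prod.snd h) t)
        have h3 := fun t => congrArg Prod.snd (congrFun (congrArg Prod.snd h) t)
        simp only at h1 h2 h3
        simp only [mA, h1, h2, h3]
  have mG : ∀ j x, x ∈ greedyL B A (j + 1) ↔
      x ∈ greedyL B A j ∨ (x ∈ A j ∧ ¬∃ t : B, (t : G) • x ∈ greedyL B A j) := by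
    intro j x
    simp only [greedyL, Set.mem_union, Set.mem_sdiff, Set.mem_iUnion, Set.mem_preimage]
  have hG : ∀ j, MeasurableSet (greedyL B A j) := by
    intro j
    induction j with
    | zero => exact MeasurableSet.empty
    | succ j ih => exact ih.union ((hA j).diff (MeasurableSet.iUnion fun t => hm _ ih))
  have lG : ∀ j, LC ν (· ∈ greedyL B A j) := by
    intro j
    induction j with
    | zero => exact LC.const False
    | succ j ih =>
      refine (ih.prod ((lA j).prod (LC.pi fun t : B => ih.comp (hmp t) (hc t)))).det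
        fun x z h => ?_
      have h1 := congrArg Prod.fst h
      have h2 := congrArg (fun p => p.2.1) h
      have h3 := fun t => congrFun (congrArg (fun p => p.2.2) h) t
      simp only at h1 h2 h3
      simp only [mG, h1, h2, h3]
  have sG : ∀ j, greedyL B A j ⊆ D := by
    intro j
    induction j with
    | zero => exact fun _ h => h.elim
    | succ j ih => exact fun x hx => ((mG j x).1 hx).elim (@ih x) fun h => ((mA j x).1 h.1).1
  have mono : Monotone (greedyL B A) := monotone_nat_of_le_succ fun j => Set.subset_union_left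
  have ind : ∀ j, ∀ t ∈ B, t ≠ 1 → ∀ x ∈ greedyL B A j, t • x ∉ greedyL B A j := by
    intro j
    induction j with
    | zero => exact fun _ _ _ _ h => h.elim
    | succ j ih =>
      intro t ht t1 x hx hy
      rcases (mG j x).1 hx with hx | hx <;> rcases (mG j _).1 hy with hy | hy
      · exact ih t ht t1 x hx hy
      · exact hy.2 ⟨⟨t⁻¹, hi t ht⟩, by simpa using hx⟩
      · exact hx.2 ⟨⟨t, ht⟩, hy⟩
      · exact (((mA j x).1 hx.1).2 ⟨t, ht⟩ t1).2 (((mA j _).1 hy.1).2 ⟨t, ht⟩ t1).1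
  have cov : ∀ x ∈ D, (∀ g ∈ B, g ≠ 1 → g • x ≠ x) →
      ∃ (t : B) (j : ℕ), (t : G) • x ∈ greedyL B A j := by
    intro x hD hx
    have hc : ∀ t : B, ∃ p, (t : G) ≠ 1 → x ∈ V p ∧ (t : G) • x ∉ V p := by
      intro t
      by_cases t1 : (t : G) = 1
      · exact ⟨(0, true), fun h => (h t1).elim⟩
      · obtain ⟨p, hp⟩ := hVs x _ (hx t t.2 t1)
        exact ⟨p, fun _ => hp⟩
    choose c hc using hc
    obtain ⟨j, rfl⟩ := he c
    by_cases h : ∃ t : B, (t : G) • x ∈ greedyL B A j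
    · obtain ⟨t, h⟩ := h
      exact ⟨t, j, h⟩
    · exact ⟨⟨1, h1⟩, j + 1, by
        rw [one_smul]
        exact (mG j x).2 (Or.inr ⟨(mA j x).2 ⟨hD, hc⟩, h⟩)⟩
  have skip : ∀ (t : B) (J : ℕ) (z : X), (t : G) • z ∈ greedyL B A J →
      (z ∈ ⋃ j, greedyL B A j) = (z ∈ greedyL B A J) := by
    intro t J z hz
    refine propext ⟨fun h => ?_, fun h => Set.mem_iUnion.2 ⟨J, h⟩⟩
    obtain ⟨j, h⟩ := Set.mem_iUnion.1 h
    induction j with
    | zero => exact h.elim
    | succ j ih =>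
      rcases lt_or_ge j J with hj | hj
      · exact mono hj h
      · exact ((mG j z).1 h).elim ih fun h => (h.2 ⟨t, mono hj hz⟩).elim
  refine ⟨⋃ j, greedyL B A j, Set.iUnion_subset sG, MeasurableSet.iUnion hG, ?_,
    fun t ht t1 x hx hy => ?_, fun x hD hx => ?_⟩
  · have f1 : ∀ᵐ x ∂ν, ∀ t : B, (t : G) ≠ 1 → (t : G) • x ≠ x := ae_all_iff.2 fun t => by
      by_cases t1 : (t : G) = 1
      · exact .of_forall fun _ h => (h t1).elim
      · exact Filter.Eventually.mono (measure_eq_zero_iff_ae_notMem.1 (hfr t t1)) fun _ h _ => h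
    have f2 := ae_all_iff.2 fun t : B => ae_all_iff.2 fun j => (lG j).comp (hmp t) (hc t)
    filter_upwards [f1, f2, ae_all_iff.2 lG, D2] with x h1 h2 h3 h4
    by_cases hD : x ∈ D
    · obtain ⟨t, J, ht⟩ := cov x hD fun g hg => h1 ⟨g, hg⟩
      filter_upwards [h2 t J, h3 J] with z a b
      rw [skip t J x ht, skip t J z (a.mpr ht), b]
    · filter_upwards [h4] with z a
      exact propext ⟨fun h => (hD (a.mp (Set.iUnion_subset sG h))).elim,
        fun h => (hD (Set.iUnion_subset sG h)).elim⟩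
  · obtain ⟨i, hx⟩ := Set.mem_iUnion.1 hx
    obtain ⟨j, hy⟩ := Set.mem_iUnion.1 hy
    exact ind (max i j) t ht t1 x (mono (le_max_left i j) hx) (mono (le_max_right i j) hy)
  · obtain ⟨t, j, h⟩ := cov x hD hx
    exact ⟨t, t.2, Set.mem_iUnion.2 ⟨j, h⟩⟩

theorem lc_marker [Nonempty ι]
    (hmp : ∀ g : FreeGroup ι, MeasurePreserving (fun x : Ω => g • x) μ μ)
    (hc : ∀ g : FreeGroup ι, Continuous fun x : Ω => g • x)
    (hfr : ∀ g : FreeGroup ι, g ≠ 1 → μ {x : Ω | g • x = x} = 0)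
    (U1 : ∀ n, MeasurableSet (U n)) (U2 : ∀ n, LC μ (· ∈ U n))
    (U3 : ∀ x y, (∀ n, x ∈ U n ↔ y ∈ U n) → x = y) {D : Set Ω} (D1 : MeasurableSet D)
    (D2 : LC μ (· ∈ D)) (n : ℕ) :
    ∃ M : Set Ω, M ⊆ D ∧ MeasurableSet M ∧ LC μ (· ∈ M) ∧
      (∀ t : FreeGroup ι, t ≠ 1 → t.norm ≤ n → ∀ x ∈ M, t • x ∉ M) ∧
      (∀ x ∈ D, (∀ g : FreeGroup ι, g ≠ 1 → g • x ≠ x) →
        ∃ t : FreeGroup ι, t.norm ≤ n ∧ t • x ∈ M) ∧ n * μ.real M ≤ 1 := by
  obtain ⟨M, hD, hM, hL, h1, h2⟩ := lc_marker_gen hmp hc hfr U1 U2 U3 D1 D2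
    (finite_ball (ι := ι) n) (show (1 : FreeGroup ι).norm ≤ n by simp)
    (fun t ht => show t⁻¹.norm ≤ n by rw [FreeGroup.norm_inv_eq]; exact ht)
  refine ⟨M, hD, hM, hL, fun t t1 ht => h1 t ht t1, fun x hx h => h2 x hx fun g _ => h g, ?_⟩
  obtain ⟨a⟩ := ‹Nonempty ι›
  let P : ℕ → Set Ω := fun i => (fun x : Ω => FreeGroup.of a ^ i • x) ⁻¹' M
  have hP : ∀ i, MeasurableSet (P i) := fun i => (hmp _).measurable hM
  have key : ∀ i j, i < j → j < n → Disjoint (P i) (P j) := by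
    intro i j hij hj
    refine Set.disjoint_left.2 fun x hx hy => h1 (FreeGroup.of a ^ (j - i)) ?_ ?_ _ hx ?_
    · show (FreeGroup.of a ^ (j - i)).norm ≤ n
      rw [FreeGroup.norm_of_pow]
      omega
    · intro h
      have := FreeGroup.norm_of_pow a (j - i)
      rw [h, FreeGroup.norm_one] at this
      omega
    · rw [← mul_smul, ← pow_add, Nat.sub_add_cancel hij.le]
      exact hy
  have hd : Set.PairwiseDisjoint (↑(Finset.range n) : Set ℕ) P := by
    intro i hi j hj hij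
    rcases lt_or_gt_of_ne hij with h | h
    · exact key i j h (Finset.mem_range.1 hj)
    · exact (key j i h (Finset.mem_range.1 hi)).symm
  have hs := measureReal_biUnion_finset (μ := μ) hd (fun i _ => hP i)
  have he : ∀ i, μ.real (P i) = μ.real M := fun i => (hmp _).measureReal_preimage hM.nullMeasurableSet
  simp only [he, Finset.sum_const, Finset.card_range, nsmul_eq_mul] at hs
  rw [← hs]
  exact measureReal_le_one

theorem lc_colour [Nonempty ι]
    (hmp : ∀ g : FreeGroup ι, MeasurePreserving (fun x : Ω => g • x) μ μ)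
    (hc : ∀ g : FreeGroup ι, Continuous fun x : Ω => g • x)
    (hfr : ∀ g : FreeGroup ι, g ≠ 1 → μ {x : Ω | g • x = x} = 0)
    (U1 : ∀ n, MeasurableSet (U n)) (U2 : ∀ n, LC μ (· ∈ U n))
    (U3 : ∀ x y, (∀ n, x ∈ U n ↔ y ∈ U n) → x = y) (n : ℕ) :
    ∃ c : Ω → ℕ, Measurable c ∧ (Set.range c).Finite ∧ LC μ c ∧
      ∀ x, (∀ g : FreeGroup ι, g ≠ 1 → g • x ≠ x) →
        ∀ t : FreeGroup ι, t ≠ 1 → t.norm ≤ n → c (t • x) ≠ c x := by
  classical
  choose Mk k1 k2 k3 k4 k5 _ using fun D : {D : Set Ω // MeasurableSet D ∧ LC μ (· ∈ D)} =>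
    lc_marker hmp hc hfr U1 U2 U3 D.2.1 D.2.2 n
  let Dn : ℕ → {D : Set Ω // MeasurableSet D ∧ LC μ (· ∈ D)} := fun i =>
    Nat.rec ⟨Set.univ, MeasurableSet.univ, LC.const True⟩ (fun _ D => ⟨D.1 \ Mk D,
      D.2.1.diff (k2 D), (D.2.2.prod (k3 D)).det fun x z h =>
        congrArg (fun p : Prop × Prop => p.1 ∧ ¬p.2) h⟩) i
  have hs : ∀ i, (Dn (i + 1)).1 = (Dn i).1 \ Mk (Dn i) := fun _ => rfl
  have anti : Antitone fun i => (Dn i).1 := antitone_nat_of_succ_le fun _ => Set.sdiff_subset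
  have dis : ∀ i j, i < j → ∀ y ∈ Mk (Dn i), y ∉ Mk (Dn j) := fun i j hij y hi hj =>
    (anti hij (k1 _ hj)).2 hi
  have : Finite {t : FreeGroup ι | t.norm ≤ n} := finite_ball (ι := ι) n
  obtain ⟨K, hK⟩ : ∃ K, Nat.card {t : FreeGroup ι | t.norm ≤ n} < K := ⟨_, Nat.lt_succ_self _⟩
  refine ⟨fun x => Fintype.equivFin (Fin K → Prop) fun i => x ∈ Mk (Dn i), ?_, ?_, ?_, ?_⟩
  · exact (measurable_of_finite fun p : Fin K → Prop => (Fintype.equivFin _ p : ℕ)).comp
      (measurable_pi_lambda _ fun i => measurable_mem.2 (k2 _))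
  · exact (Set.finite_range fun p : Fin K → Prop => (Fintype.equivFin _ p : ℕ)).subset
      fun _ ⟨_, h⟩ => ⟨_, h⟩
  · exact (LC.pi fun i : Fin K => k3 (Dn i)).det fun x z h =>
      congrArg (fun p : Fin K → Prop => (Fintype.equivFin _ p : ℕ)) h
  · intro x hx t t1 tn h
    have h' := (Fintype.equivFin _).injective (Fin.ext h)
    have hn : ∀ i, i < K → x ∉ Mk (Dn i) := fun i hi hm =>
      k4 _ t t1 tn x hm ((congrFun h' ⟨i, hi⟩).mpr hm)
    have hD : ∀ i, i ≤ K → x ∈ (Dn i).1 := by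
      intro i
      induction i with
      | zero => exact fun _ => trivial
      | succ i ih => exact fun hi => ⟨ih (by omega), hn i hi⟩
    choose s s1 s2 using fun i : Fin K => k5 (Dn i) x (hD i i.2.le) hx
    have inj : Function.Injective fun i : Fin K =>
        (⟨s i, s1 i⟩ : {t : FreeGroup ι | t.norm ≤ n}) := by
      intro i j hij
      have e : s i = s j := congrArg Subtype.val hij
      by_contra hne
      rcases lt_or_gt_of_ne hne with h | h
      · exact dis i j h _ (s2 i) (e ▸ s2 j)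
      · exact dis j i h _ (s2 j) (e ▸ s2 i)
    have := Nat.card_le_card_of_injective _ inj
    rw [Nat.card_eq_fintype_card, Fintype.card_fin] at this
    exact absurd hK (not_lt.2 this)

end Pool.Agent.P.MP_11b517_an.St
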