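import Pool.Agent.P.MP_11b517_an.St.HB

/-! Integer witnesses, separating sets and ergodicity on a uniquely ergodic system. -/

set_option autoImplicit false

namespace Pool.Agent.P.MP_11b517_an.St

open MeasureTheory

variable {G X : Type} [Group G] [TopologicalSpace X] [CompactSpace X]
  [TopologicalSpace.MetrizableSpace X] [MeasurableSpace X] [BorelSpace X] [MulAction G X]
  {ν : Measure X} [IsProbabilityMeasure ν]

omit [CompactSpace X] in
theorem rnd_major {A : Set X} (hA : LC ν (· ∈ A)) {ε : ℝ} (hε : 0 < ε) :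
    ∃ f : X → ℝ, Continuous f ∧ (∀ x, A.indicator (1 : X → ℝ) x ≤ f x) ∧
      ∫ z, f z ∂ν ≤ ν.real A + ε := by
  have h1 : ν (closure A) ≤ ν A := by
    refine measure_mono_ae (Filter.Eventually.mono hA fun x hx hcl => ?_)
    obtain ⟨z, hz, e⟩ := ((mem_closure_iff_frequently.1 hcl).and_eventually hx).exists
    exact cast e hz
  obtain ⟨U, hAU, hU, hlt⟩ := (closure A).exists_isOpen_lt_add (μ := ν) (measure_ne_top _ _)
    (ε := ENNReal.ofReal ε) (by simpa using hε)
  obtain ⟨f, f0, f1, f01⟩ := exists_continuous_zero_one_of_isClosed hU.isClosed_compl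
    isClosed_closure (Set.disjoint_left.2 fun x hx hx' => hx (hAU hx'))
  refine ⟨f, f.continuous, fun x => ?_, ?_⟩
  · by_cases hx : x ∈ A
    · rw [Set.indicator_of_mem hx, f1 (subset_closure hx)]
    · rw [Set.indicator_of_notMem hx]
      exact (f01 x).1
  · have h2 : ∫ z, f z ∂ν ≤ ∫ z, U.indicator (1 : X → ℝ) z ∂ν := by
      refine integral_mono_of_nonneg (.of_forall fun x => (f01 x).1)
        ((integrable_const (1 : ℝ)).indicator hU.measurableSet) (.of_forall fun x => ?_)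
      by_cases hx : x ∈ U
      · simpa [hx] using (f01 x).2
      · simpa [hx] using (f0 hx).le
    rw [integral_indicator_one hU.measurableSet] at h2
    refine h2.trans ?_
    have h3 : ν U ≤ ν A + ENNReal.ofReal ε := hlt.le.trans (add_le_add h1 le_rfl)
    have h4 := ENNReal.toReal_mono (by finiteness) h3
    rwa [ENNReal.toReal_add (measure_ne_top _ _) ENNReal.ofReal_ne_top,
      ENNReal.toReal_ofReal hε.le] at h4

omit [CompactSpace X] [TopologicalSpace.MetrizableSpace X] [BorelSpace X]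
  [IsProbabilityMeasure ν] in
theorem rnd_floor {g : X → ℝ} (hg : Continuous g) (h0 : ∀ n : ℤ, ν {x | g x = n} = 0) :
    LC ν fun x => ⌊g x⌋ := by
  have h1 : ∀ᵐ x ∂ν, ∀ n : ℤ, g x ≠ n := ae_all_iff.2 fun n => by
    rw [ae_iff]
    simpa using h0 n
  refine h1.mono fun x hx => ?_
  have h2 : Set.Ioo ((⌊g x⌋ : ℤ) : ℝ) (⌊g x⌋ + 1) ∈ nhds (g x) :=
    Ioo_mem_nhds (lt_of_le_of_ne (Int.floor_le _) (hx _).symm) (Int.lt_floor_add_one _)
  filter_upwards [hg.continuousAt.preimage_mem_nhds h2] with z hz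
  exact Int.floor_eq_iff.2 ⟨hz.1.le, hz.2⟩

omit [CompactSpace X] [TopologicalSpace.MetrizableSpace X] [Group G] [MulAction G X] in
theorem rnd_shift (S : Finset G) {g : G → X → ℝ} (hg : ∀ s, Continuous (g s)) :
    ∃ θ : ℝ, ∀ s ∈ S, ∀ n : ℤ, ν {x | g s x + θ = n} = 0 := by
  have h1 : (⋃ s ∈ (S : Set G), ⋃ n : ℤ,
      (fun t : ℝ => (n : ℝ) - t) '' {t | 0 < ν {x | g s x = t}}).Countable :=
    S.countable_toSet.biUnion fun s _ => Set.countable_iUnion fun n =>
      (Measure.countable_meas_level_set_pos (hg s).measurable).image _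
  obtain ⟨θ, hθ⟩ := (h1.dense_compl ℝ).nonempty
  refine ⟨θ, fun s hs n => ?_⟩
  by_contra hne
  refine hθ (Set.mem_iUnion₂.2 ⟨s, hs, Set.mem_iUnion.2 ⟨n, n - θ, ?_, by ring⟩⟩)
  have e : {x | g s x = n - θ} = {x | g s x + θ = n} := by
    ext x
    simp only [Set.mem_ofPred_eq]
    exact eq_sub_iff_add_eq
  show 0 < ν {x | g s x = n - θ}
  rw [e]
  exact pos_iff_ne_zero.2 hne

theorem lc_wit (hc : ∀ g : G, Continuous fun x : X => g • x)
    (hν : ∀ g : G, Measure.map (fun x : X => g • x) ν = ν)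
    (hu : ∀ ν' : Measure X, IsProbabilityMeasure ν' →
      (∀ g : G, Measure.map (fun x : X => g • x) ν' = ν') → ν' = ν)
    {A : Set X} (hA : LC ν (· ∈ A)) {ε : ℝ} (hε : 0 < ε) :
    ∃ (S : Finset G) (a : ℝ) (B : ℕ) (h : G → X → ℤ), 0 ≤ a ∧ (∀ s, Measurable (h s)) ∧
      (∀ s x, |h s x| ≤ B) ∧ (∀ s, LC ν (h s)) ∧ ∀ x, A.indicator (1 : X → ℝ) x ≤
        ν.real A + ε + a * ∑ s ∈ S, ((h s (s⁻¹ • x) : ℝ) - h s x) := by
  classical
  have hε3 : 0 < ε / 3 := by positivity
  obtain ⟨f, hf, f1, f2⟩ := rnd_major hA hε3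
  obtain ⟨S, h, hh, hw⟩ := cont_wit hc hν hu hf hε3
  set q : ℝ := S.card / (ε / 3) + 1 with hq
  have hq0 : 0 < q := by positivity
  have hqS : q⁻¹ * S.card ≤ ε / 3 := by
    rw [inv_mul_le_iff₀ hq0, hq, add_mul, div_mul_cancel₀ _ hε3.ne']
    linarith
  obtain ⟨θ, hθ⟩ := rnd_shift (ν := ν) S (g := fun s x => q * h s x) fun s => by
    have := hh s
    fun_prop
  have hg : ∀ s, Continuous fun x => q * h s x + θ := fun s => by
    have := hh s
    fun_prop
  have hb : ∀ s, ∃ C : ℕ, ∀ x, |⌊q * h s x + θ⌋| ≤ C := fun s => by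
    obtain ⟨C, hC⟩ := isCompact_univ.exists_bound_of_continuousOn (hg s).continuousOn
    refine ⟨⌈C⌉₊, fun x => ?_⟩
    have h1 := abs_le.1 ((hC x (Set.mem_univ x)).trans (Nat.le_ceil C))
    rw [abs_le]
    constructor
    · rw [Int.le_floor]
      exact_mod_cast h1.1
    · have := (Int.floor_le _).trans h1.2
      exact_mod_cast this
  choose C hC using hb
  refine ⟨S, q⁻¹, S.sup C, fun s x => if s ∈ S then ⌊q * h s x + θ⌋ else 0,
    (inv_pos.2 hq0).le, fun s => ?_, fun s x => ?_, fun s => ?_, fun x => ?_⟩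
  · by_cases hs : s ∈ S
    · simp only [if_pos hs]
      exact (hg s).measurable.floor
    · simp only [if_neg hs]
      exact measurable_const
  · by_cases hs : s ∈ S
    · simp only [if_pos hs]
      exact (hC s x).trans (by exact_mod_cast Finset.le_sup (f := C) hs)
    · simp only [if_neg hs]
      simp
  · by_cases hs : s ∈ S
    · simp only [if_pos hs]
      exact rnd_floor (hg s) (hθ s hs)
    · simp only [if_neg hs]
      exact LC.const _
  · have h1 : ∑ s ∈ S, (q * (h s (s⁻¹ • x) - h s x) - 1) ≤ ∑ s ∈ S,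
        ((((if s ∈ S then ⌊q * h s (s⁻¹ • x) + θ⌋ else 0 : ℤ) : ℝ)) -
          ((if s ∈ S then ⌊q * h s x + θ⌋ else 0 : ℤ) : ℝ)) := by
      refine Finset.sum_le_sum fun s hs => ?_
      simp only [if_pos hs]
      have a1 := Int.lt_floor_add_one (q * h s (s⁻¹ • x) + θ)
      have a2 := Int.floor_le (q * h s x + θ)
      linarith
    have h2 := mul_le_mul_of_nonneg_left h1 (inv_pos.2 hq0).le
    rw [Finset.sum_sub_distrib, ← Finset.mul_sum, mul_sub, inv_mul_cancel_left₀ hq0.ne',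
      Finset.sum_const, nsmul_eq_mul, mul_one] at h2
    have h3 := f1 x
    have h4 := hw x
    linarith

end Pool.Agent.P.MP_11b517_an.St
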