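import Pool.Agent.P.MP_11b517_an.St.LC

/-! Separating sets and ergodicity on a uniquely ergodic system. -/

set_option autoImplicit false

namespace Pool.Agent.P.MP_11b517_an.St

open MeasureTheory

variable {G X : Type} [Group G] [TopologicalSpace X] [CompactSpace X]
  [TopologicalSpace.MetrizableSpace X] [MeasurableSpace X] [BorelSpace X] [MulAction G X]
  {ν : Measure X} [IsProbabilityMeasure ν]

theorem sep_lc {Ω : Type} [MeasurableSpace Ω] [TopologicalSpace Ω] {μ : Measure Ω} {U : Set Ω}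
    (h : μ (frontier U) = 0) : LC μ (· ∈ U) := by
  refine Filter.Eventually.mono (measure_eq_zero_iff_ae_notMem.1 h) fun x hx => ?_
  by_cases c : x ∈ U
  · have : U ∈ nhds x := mem_interior_iff_mem_nhds.1 (by
      by_contra d
      exact hx ⟨subset_closure c, d⟩)
    exact Filter.Eventually.mono this fun z hz => propext (iff_of_true hz c)
  · have : Uᶜ ∈ nhds x := mem_interior_iff_mem_nhds.1 (by
      by_contra d
      rw [← frontier_compl] at hx
      exact hx ⟨subset_closure c, d⟩)
    exact Filter.Eventually.mono this fun z hz => propext (iff_of_false hz c)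

theorem lc_sep : ∃ U : ℕ → Set X, (∀ n, MeasurableSet (U n)) ∧ (∀ n, LC ν (· ∈ U n)) ∧
    ∀ x y, (∀ n, x ∈ U n ↔ y ∈ U n) → x = y := by
  letI := TopologicalSpace.metrizableSpaceMetric X
  haveI : Nonempty X := nonempty_of_isProbabilityMeasure ν
  have h : ∀ p : ℕ × ℕ, ∃ r ∈ Set.Ioo (1 / ((p.2 : ℝ) + 2)) (1 / ((p.2 : ℝ) + 1)),
      ν (frontier (Metric.thickening r {TopologicalSpace.denseSeq X p.1})) = 0 := fun p =>
    exists_null_frontier_thickening ν _
      (one_div_lt_one_div_of_lt (by positivity) (by linarith))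
  choose r hr h0 using h
  refine ⟨fun n => Metric.thickening (r n.unpair) {TopologicalSpace.denseSeq X n.unpair.1},
    fun n => Metric.isOpen_thickening.measurableSet, fun n => sep_lc (h0 _), fun x y hxy => ?_⟩
  by_contra hne
  obtain ⟨k, hk⟩ := exists_nat_one_div_lt (half_pos (dist_pos.2 hne))
  obtain ⟨i, hi⟩ := (TopologicalSpace.denseRange_denseSeq X).exists_dist_lt x
    (ε := 1 / ((k : ℝ) + 2)) (by positivity)
  have h1 := hxy (Nat.pair i k)
  simp only [Nat.unpair_pair, Metric.thickening_singleton, Metric.mem_ball] at h1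
  have h2 := hi.trans (hr (i, k)).1
  have h3 := h1.1 h2
  have h4 : r (i, k) < 1 / ((k : ℝ) + 1) := (hr (i, k)).2
  linarith [dist_triangle_right x y (TopologicalSpace.denseSeq X i)]

theorem ue_hits [Countable G] (hc : ∀ g : G, Continuous fun x : X => g • x)
    (hν : ∀ g : G, Measure.map (fun x : X => g • x) ν = ν)
    (hu : ∀ ν' : Measure X, IsProbabilityMeasure ν' →
      (∀ g : G, Measure.map (fun x : X => g • x) ν' = ν') → ν' = ν)
    {A : Set X} (hA : MeasurableSet A) (h0 : ν A ≠ 0) : ∀ᵐ x ∂ν, ∃ g : G, g⁻¹ • x ∈ A := by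
  obtain ⟨W, hW⟩ : ∃ W : Set X, W = ⋃ g : G, (fun x => g⁻¹ • x) ⁻¹' A := ⟨_, rfl⟩
  have hm : ∀ x, x ∈ W ↔ ∃ g : G, g⁻¹ • x ∈ A := fun x => by simp [hW]
  have hWm : MeasurableSet W := hW ▸ MeasurableSet.iUnion fun g => (hc _).measurable hA
  have hW0 : ν W ≠ 0 := fun e =>
    h0 (measure_mono_null (fun x hx => (hm x).2 ⟨1, by simpa using hx⟩) e)
  have hinv : ∀ g : G, (fun x : X => g • x) ⁻¹' W = W := fun g => by
    ext x
    simp only [Set.mem_preimage, hm]
    exact ⟨fun ⟨k, hk⟩ => ⟨g⁻¹ * k, by simpa [mul_smul] using hk⟩,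
      fun ⟨k, hk⟩ => ⟨g * k, by simpa [mul_smul] using hk⟩⟩
  have h1 := hu (ProbabilityTheory.cond ν W) (ProbabilityTheory.cond_isProbabilityMeasure hW0)
    fun g => by
      ext B hB
      rw [Measure.map_apply (hc g).measurable hB, ProbabilityTheory.cond_apply hWm,
        ProbabilityTheory.cond_apply hWm]
      congr 1
      conv_lhs => rw [← hinv g, ← Set.preimage_inter,
        ← Measure.map_apply (hc g).measurable (hWm.inter hB), hν g]
  have h2 := ProbabilityTheory.ae_cond_mem (μ := ν) hWm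
  rw [h1] at h2
  exact h2.mono fun x hx => (hm x).1 hx

end Pool.Agent.P.MP_11b517_an.St
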