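import Pool.Agent.P.MP_11b517_an.St.Defs

/-! Sparse markers along a word. -/

set_option autoImplicit false

namespace Pool.Agent.P.MP_11b517_an.St

variable {ι : Type} [DecidableEq ι]

theorem sparse_dist {i j : ℕ} {t : FreeGroup ι} (hij : i ≤ j) (hj : j ≤ t.norm) :
    ((pre i t)⁻¹ * pre j t).norm = j - i := by
  have e : pre j t = pre i t * FreeGroup.mk ((t.toWord.take j).drop i) := by
    rw [pre, pre, FreeGroup.mul_mk]
    congr 1
    conv_lhs => rw [← List.take_append_drop i (t.toWord.take j), List.take_take, min_eq_left hij]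
  have r : FreeGroup.IsReduced ((t.toWord.take j).drop i) :=
    List.IsChain.drop (List.IsChain.take FreeGroup.isReduced_toWord _) _
  rw [e, inv_mul_cancel_left, FreeGroup.norm, FreeGroup.toWord_mk, r.reduce_eq, List.length_drop,
    List.length_take, min_eq_left (show j ≤ t.toWord.length from hj)]

open Classical in
theorem sparse {M : FreeGroup ι → Prop} {n l : ℕ} (hn : 2 * l < n)
    (h : ∀ g g', M g → M g' → g ≠ g' → n < (g⁻¹ * g').norm) (t : FreeGroup ι) :
    (((Finset.range (t.norm + 1)).filter fun i => ∃ g, M g ∧ (g⁻¹ * pre i t).norm ≤ l).card : ℝ) ≤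
      (2 * l + 1) / (n - 2 * l) * t.norm + (2 * l + 1) := by
  obtain ⟨W, rfl⟩ : ∃ W, n = 2 * l + W := ⟨n - 2 * l, by omega⟩
  have hW : 0 < W := by omega
  generalize hS : ((Finset.range (t.norm + 1)).filter fun i =>
    ∃ g, M g ∧ (g⁻¹ * pre i t).norm ≤ l) = S
  have mem : ∀ i ∈ S, i ≤ t.norm ∧ ∃ g, M g ∧ (g⁻¹ * pre i t).norm ≤ l := fun i hi => by
    rw [← hS, Finset.mem_filter, Finset.mem_range] at hi
    exact ⟨by omega, hi.2⟩
  have key : ∀ i ∈ S, ∀ j ∈ S, i ≤ j → j ≤ i + 2 * l ∨ i + W < j := by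
    intro i hi j hj hij
    obtain ⟨-, g, m, a⟩ := mem i hi
    obtain ⟨b, g', m', a'⟩ := mem j hj
    have d := sparse_dist hij b
    by_cases e : g = g'
    · subst e
      have k := FreeGroup.norm_mul_le (g⁻¹ * pre i t)⁻¹ (g⁻¹ * pre j t)
      rw [FreeGroup.norm_inv_eq,
        show (g⁻¹ * pre i t)⁻¹ * (g⁻¹ * pre j t) = (pre i t)⁻¹ * pre j t by group] at k
      omega
    · have k := h g g' m m' e
      have k1 := FreeGroup.norm_mul_le (g⁻¹ * pre i t) ((pre i t)⁻¹ * pre j t)
      have k2 := FreeGroup.norm_mul_le (g⁻¹ * pre i t * ((pre i t)⁻¹ * pre j t))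
        (g'⁻¹ * pre j t)⁻¹
      rw [FreeGroup.norm_inv_eq, show g⁻¹ * pre i t * ((pre i t)⁻¹ * pre j t) *
        (g'⁻¹ * pre j t)⁻¹ = g⁻¹ * g' by group] at k2
      omega
  have c : S.card ≤ (2 * l + 1) * (Finset.range (t.norm / W + 1)).card := by
    refine Finset.card_le_mul_card_image_of_maps_to (f := fun i => i / W) (fun i hi =>
      Finset.mem_range.2 (Nat.lt_succ_of_le (Nat.div_le_div_right (mem i hi).1))) _ fun a _ => ?_
    rcases (S.filter fun i => i / W = a).eq_empty_or_nonempty with e | e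
    · simp [e]
    · obtain ⟨i, hi, hm⟩ := Finset.exists_min_image _ id e
      refine (Finset.card_le_card (t := Finset.Icc i (i + 2 * l)) fun j hj => ?_).trans (by
        rw [Nat.card_Icc]; omega)
      have hij : i ≤ j := hm j hj
      rw [Finset.mem_filter] at hi hj
      refine Finset.mem_Icc.2 ⟨hij, (key i hi.1 j hj.1 hij).resolve_right fun k => ?_⟩
      have k1 : (i + W) / W ≤ j / W := Nat.div_le_div_right k.le
      rw [Nat.add_div_right _ hW] at k1
      omega
  rw [Finset.card_range] at c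
  have c1 : (S.card : ℝ) ≤ (2 * l + 1) * ((t.norm / W : ℕ) + 1) := by exact_mod_cast c
  have c2 : ((t.norm / W : ℕ) : ℝ) ≤ t.norm / W := Nat.cast_div_le
  push_cast
  rw [add_sub_cancel_left, div_mul_eq_mul_div, mul_div_assoc]
  have c3 := mul_le_mul_of_nonneg_left c2 (by positivity : (0 : ℝ) ≤ 2 * l + 1)
  linarith

end Pool.Agent.P.MP_11b517_an.St
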