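import Pool.Agent.P.MP_11b517_an.St.Step
import Pool.Agent.P.MP_11b517_an.St.TreeA
import Pool.Agent.P.MP_11b517_an.St.Sparse
import Pool.Agent.P.MP_11b517_an.St.MarkL

/-! Planting a window around sparse markers. -/

set_option autoImplicit false
set_option linter.unusedSectionVars false

namespace Pool.Agent.P.MP_11b517_an.St

open MeasureTheory Set

variable {ι Ω : Type} [DecidableEq ι] [Fintype ι] [MeasurableSpace Ω] [MulAction (FreeGroup ι) Ω]
  {μ : Measure Ω} [IsProbabilityMeasure μ]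

open Classical in
/-- The set is sparse along geodesics. -/
def Dens (ι : Type) [DecidableEq ι] [MulAction (FreeGroup ι) Ω] (Bad : Set Ω) (η κ : ℝ) : Prop :=
  ∀ (z : Ω) (t : FreeGroup ι),
    (((Finset.range (t.norm + 1)).filter fun i => (pre i t)⁻¹ • z ∈ Bad).card : ℝ) ≤ η * t.norm + κ

theorem Scar.shift {d : FreeGroup ι → ℕ} (h : Scar d) (g : FreeGroup ι) : Scar fun t => d (g * t) :=
  ⟨fun t s => by simpa only [mul_assoc] using h.lip (g * t) s,
    fun t k => by simpa only [mul_assoc] using h.out (g * t) k⟩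

theorem scar_zero : Scar fun _ : FreeGroup ι => 0 :=
  ⟨fun _ _ => Nat.zero_le _, fun _ k => absurd k (lt_irrefl _)⟩

theorem cut_le {Bad : Set Ω} {η κ : ℝ} (h : Dens ι Bad η κ) (hη : η ≤ 1 / 4) {a b : Ω} {R : ℕ}
    {t : FreeGroup ι} (k : Cut (fun g => g⁻¹ • a ∈ Bad ∨ g⁻¹ • b ∈ Bad) R t) :
    (t.norm : ℝ) ≤ 2 * R + 4 * κ := by
  classical
  have h1 := h a t
  have h2 := h b t
  have h3 : (Finset.Ioc R t.norm).card ≤
      ((Finset.range (t.norm + 1)).filter fun i => (pre i t)⁻¹ • a ∈ Bad).card +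
      ((Finset.range (t.norm + 1)).filter fun i => (pre i t)⁻¹ • b ∈ Bad).card := by
    refine (Finset.card_le_card fun i hi => ?_).trans (Finset.card_union_le _ _)
    rw [Finset.mem_Ioc] at hi
    simp only [Finset.mem_union, Finset.mem_filter, Finset.mem_range, Nat.lt_succ_iff, hi.2,
      true_and]
    exact k i hi.1 hi.2
  rw [Nat.card_Ioc, tsub_le_iff_right] at h3
  have h4 := (Nat.cast_le (α := ℝ)).2 h3
  push_cast at h4
  nlinarith [mul_le_mul_of_nonneg_right hη (Nat.cast_nonneg (α := ℝ) t.norm)]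

theorem piece {G β : Type} [Countable G] [MeasurableSpace β] {A : G → Set Ω}
    (hA : ∀ g, MeasurableSet (A g)) (hd : ∀ g g' x, x ∈ A g → x ∈ A g' → g = g') (c : G → β)
    {f : Ω → β} (hf : Measurable f) : ∃ f' : Ω → β, Measurable f' ∧
      (∀ g x, x ∈ A g → f' x = c g) ∧ ∀ x, (∀ g, x ∉ A g) → f' x = f x := by
  classical
  let f' : Ω → β := fun x => if h : ∃ g, x ∈ A g then c h.choose else f x
  have h1 : ∀ g x, x ∈ A g → f' x = c g := fun g x hx => by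
    have h : ∃ g, x ∈ A g := ⟨g, hx⟩
    simp only [f', dif_pos h, hd _ _ x h.choose_spec hx]
  have h2 : ∀ x, (∀ g, x ∉ A g) → f' x = f x := fun x hx => dif_neg (not_exists.2 hx)
  refine ⟨f', fun s hs => ?_, h1, h2⟩
  have : f' ⁻¹' s = (⋃ g, A g ∩ {_x | c g ∈ s}) ∪ ((⋃ g, A g)ᶜ ∩ f ⁻¹' s) := by
    ext x
    simp only [mem_preimage, mem_union, mem_iUnion, mem_inter_iff, mem_ofPred_eq, mem_compl_iff]
    by_cases h : ∃ g, x ∈ A g
    · obtain ⟨g, hg⟩ := h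
      rw [h1 g x hg]
      exact ⟨fun k => .inl ⟨g, hg, k⟩, fun k => k.elim (fun ⟨g', k1, k2⟩ => hd _ _ x k1 hg ▸ k2)
        fun k => absurd ⟨g, hg⟩ k.1⟩
    · rw [h2 x (not_exists.1 h)]
      exact ⟨fun k => .inr ⟨h, k⟩, fun k => k.elim (fun ⟨g', k1, _⟩ => absurd ⟨g', k1⟩ h) And.right⟩
  rw [this]
  exact (MeasurableSet.iUnion fun g => (hA g).inter (MeasurableSet.const _)).union
    ((MeasurableSet.iUnion hA).compl.inter (hf hs))

theorem surgery [Nontrivial ι] [TopologicalSpace Ω] {U : ℕ → Set Ω}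
    (hmp : ∀ g : FreeGroup ι, MeasurePreserving (fun x : Ω => g • x) μ μ)
    (hc : ∀ g : FreeGroup ι, Continuous fun x : Ω => g • x)
    (hfr : ∀ g : FreeGroup ι, g ≠ 1 → μ {x : Ω | g • x = x} = 0)
    (U1 : ∀ n, MeasurableSet (U n)) (U2 : ∀ n, LC μ (· ∈ U n))
    (U3 : ∀ x y, (∀ n, x ∈ U n ↔ y ∈ U n) → x = y) {Bad : Set Ω} (hB : MeasurableSet Bad)
    (lB : LC μ (· ∈ Bad)) {η κ δ : ℝ} (hD : Dens ι Bad η κ) (hη : η ≤ 1 / 4) (hδ : 0 < δ)
    {q : Ω → ℕ → ℕ} (hq : Measurable q) (lq : LC μ q) (x₀ : Ω) (R N : ℕ) :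
    ∃ (p : Ω → ℕ → ℕ) (Bad' : Set Ω) (κ' : ℝ) (n : ℕ), Measurable p ∧ range p ⊆ range q ∧
      LC μ p ∧ LC μ (· ∈ Bad') ∧ MeasurableSet Bad' ∧ Bad ⊆ Bad' ∧ Dens ι Bad' (η + δ) κ' ∧
      (∀ x, ∃ x', ((∃ g : FreeGroup ι, x' = g • x₀) ∨ x' = x) ∧ ∃ d, Scar d ∧
        (∀ t : FreeGroup ι, t.norm ≤ N → p (t⁻¹ • x) = q (t⁻¹ • if d t = 0 then x' else x)) ∧
        ∀ N' ≤ N, ∀ t t' : FreeGroup ι, t.norm ≤ N' → t'.norm ≤ N' → d t = 0 → d t' ≠ 0 →
          ∃ u : FreeGroup ι, u.norm ≤ N' ∧ u⁻¹ • x ∉ Bad ∧ u⁻¹ • x' ∉ Bad) ∧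
      (∀ z ∉ Bad', ∀ t : FreeGroup ι, t.norm ≤ 2 * N → p (t⁻¹ • z) = q (t⁻¹ • z)) ∧
      (∀ x, (∀ g : FreeGroup ι, g ≠ 1 → g • x ≠ x) → ∃ h : FreeGroup ι, h.norm ≤ n ∧
        ∀ a : FreeGroup ι, a.norm ≤ R → p ((h * a)⁻¹ • x) = q (a⁻¹ • x₀)) ∧
      μ.real {x | p x ≠ q x} ≤ δ := by
  classical
  obtain ⟨L, hL⟩ := exists_nat_ge (2 * R + 4 * κ)
  have fb := finite_ball (ι := ι) L
  obtain ⟨l, hl⟩ : ∃ l, l = L + 2 * N := ⟨_, rfl⟩
  obtain ⟨m, hm⟩ := exists_nat_ge ((2 * l + 1 + fb.toFinset.card) / δ)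
  rw [div_le_iff₀ hδ] at hm
  obtain ⟨M, -, M1, M0, M2, M3, M4⟩ := lc_marker hmp hc hfr U1 U2 U3 .univ (LC.const True)
    (2 * l + m + 1)
  have sep : ∀ (g g' : FreeGroup ι) (x : Ω), g • x ∈ M → g' • x ∈ M →
      (g' * g⁻¹).norm ≤ 2 * l + m + 1 → g = g' := fun g g' x h h' k => by
    by_contra e
    exact M2 _ (fun k => e (mul_inv_eq_one.1 k).symm) k _ h (by simpa [mul_smul] using h')
  have nm : ∀ g g' : FreeGroup ι, (g' * g⁻¹).norm ≤ g'.norm + g.norm := fun g g' => by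
    simpa using FreeGroup.norm_mul_le g' g⁻¹
  let A : FreeGroup ι → Set Ω := fun g =>
    {x | g • x ∈ M ∧ Cut (fun a => a⁻¹ • g • x ∈ Bad ∨ a⁻¹ • x₀ ∈ Bad) R g}
  have AL : ∀ g x, x ∈ A g → g.norm ≤ L := fun g x h => by
    exact_mod_cast (cut_le hD hη h.2).trans hL
  have Am : ∀ g, MeasurableSet (A g) := fun g => by
    refine ((hmp g).measurable M1).inter (s₂ := {x | Cut (fun a => a⁻¹ • g • x ∈ Bad ∨
      a⁻¹ • x₀ ∈ Bad) R g}) ?_
    simp only [Cut, ofPred_forall]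
    exact MeasurableSet.iInter fun i => MeasurableSet.iInter fun _ => MeasurableSet.iInter fun _ =>
      ((hmp g).measurable ((hmp _).measurable hB)).union (MeasurableSet.const _)
  have Al : ∀ g, LC μ (· ∈ A g) := fun g =>
    ((M0.comp (hmp g) (hc g)).prod (LC.pi fun i : Fin (g.norm + 1) => (lB.comp (hmp (pre i g)⁻¹)
      (hc _)).comp (hmp g) (hc g))).det fun x z e => propext (and_congr
        (iff_of_eq (Prod.ext_iff.1 e).1) (forall₃_congr fun i _ hi => or_congr_left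
          (iff_of_eq (congrFun (Prod.ext_iff.1 e).2 ⟨i, Nat.lt_succ_of_le hi⟩))))
  have f1 := fb.to_subtype
  have f2 := (finite_ball (ι := ι) l).to_subtype
  obtain ⟨p, p1, p2, p3⟩ := piece Am (fun g g' x h h' => sep g g' x h.1 h'.1 (by
    have := nm g g'; have := AL g x h; have := AL g' x h'; omega)) (fun g => q (g⁻¹ • x₀)) hq
  refine ⟨p, Bad ∪ ⋃ h : FreeGroup ι, ⋃ _ : h.norm ≤ l, (fun x => h • x) ⁻¹' M, κ + (2 * l + 1),
    2 * l + m + 1, p1, ?_, (lq.prod (LC.pi fun g : {t : FreeGroup ι | t.norm ≤ L} => Al g)).det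
      fun x z e => ?_, (lB.prod (LC.pi fun g : {t : FreeGroup ι | t.norm ≤ l} =>
        M0.comp (hmp g) (hc g))).det fun x z e => ?_, hB.union (MeasurableSet.iUnion fun h => MeasurableSet.iUnion fun _ =>
      (hmp h).measurable M1), subset_union_left, fun z t => ?_, fun x => ?_, fun z hz t ht => ?_,
      fun x hx => ?_, ?_⟩
  · rintro _ ⟨x, rfl⟩
    by_cases h : ∃ g, x ∈ A g
    · obtain ⟨g, h⟩ := h
      exact ⟨_, (p2 g x h).symm⟩
    · exact ⟨x, (p3 x (not_exists.1 h)).symm⟩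
  · obtain ⟨e1, e2⟩ := Prod.ext_iff.1 e
    by_cases h : ∃ g, x ∈ A g
    · obtain ⟨g, h⟩ := h
      rw [p2 g x h, p2 g z ((congrFun e2 ⟨g, AL g x h⟩).mp h)]
    · rw [p3 x (not_exists.1 h), p3 z fun g k => h ⟨g, (congrFun e2 ⟨g, AL g z k⟩).mpr k⟩]
      exact e1
  · obtain ⟨e1, e2⟩ := Prod.ext_iff.1 e
    simp only [mem_union, mem_iUnion, mem_preimage]
    exact propext (or_congr (iff_of_eq e1) (exists_congr fun g => exists_congr fun k =>
      iff_of_eq (congrFun e2 ⟨g, k⟩)))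
  · have h1 := hD z t
    have h2 := sparse (M := fun g : FreeGroup ι => g⁻¹ • z ∈ M) (n := 2 * l + m + 1) (l := l)
      (by omega) (fun g g' h h' e => not_le.1 fun k => e (inv_injective
        (sep _ _ z h' h (by simpa using k))).symm) t
    have h3 : (2 * l + 1 : ℝ) / (((2 * l + m + 1 : ℕ) : ℝ) - 2 * l) ≤ δ := by
      push_cast
      rw [div_le_iff₀ (by linarith [Nat.cast_nonneg (α := ℝ) m])]
      nlinarith [Nat.cast_nonneg (α := ℝ) fb.toFinset.card]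
    have h4 := mul_le_mul_of_nonneg_right h3 (Nat.cast_nonneg (α := ℝ) t.norm)
    refine le_trans (Nat.cast_le.2 ((Finset.card_le_card fun i hi => ?_).trans
      (Finset.card_union_le _ _))) ((Nat.cast_add _ _).trans_le ((add_le_add h1 h2).trans
        (by linarith)))
    simp only [Finset.mem_union, Finset.mem_filter, mem_union, mem_iUnion, mem_preimage] at hi ⊢
    refine hi.2.imp (fun k => ⟨hi.1, k⟩) fun ⟨h, k1, k2⟩ => ⟨hi.1, pre i t * h⁻¹, ?_, ?_⟩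
    · simpa [mul_smul] using k2
    · simpa using k1
  · by_cases h : ∃ g : FreeGroup ι, g.norm ≤ L + N ∧ g • x ∈ M
    · obtain ⟨g, g1, g2⟩ := h
      obtain ⟨d, d1, d2⟩ := cut_scar (fun a : FreeGroup ι => a⁻¹ • g • x ∈ Bad ∨ a⁻¹ • x₀ ∈ Bad) R
      refine ⟨g⁻¹ • x₀, .inl ⟨_, rfl⟩, _, d1.shift g, fun t ht => ?_, fun N' _ t t' k k' e e' => ?_⟩
      · have e : (g * t) • t⁻¹ • x = g • x := by simp [mul_smul]
        split_ifs with k
        · rw [p2 (g * t) _ ⟨e ▸ g2, e ▸ (d2 _).1 k⟩, mul_inv_rev, mul_smul]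
        · refine p3 _ fun g' k' => k ((d2 _).2 ?_)
          have : g = g' * t⁻¹ := sep _ _ x g2 (by simpa [mul_smul] using k'.1) (by
            have := nm g (g' * t⁻¹); have := nm t g'; have := AL g' _ k'; omega)
          obtain rfl : g' = g * t := by simp [this]
          exact e ▸ k'.2
      · obtain ⟨u, u1, u2⟩ := cut_exit k k' ((d2 _).1 e) fun c => e' ((d2 _).2 c)
        exact ⟨u, u1, by simpa [mul_smul] using u2⟩
    · refine ⟨x, .inr rfl, _, scar_zero, fun t ht => ?_, fun _ _ _ _ _ _ _ k => absurd rfl k⟩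
      rw [if_pos rfl]
      refine p3 _ fun g k => h ⟨g * t⁻¹, ?_, by simpa [mul_smul] using k.1⟩
      have := nm t g; have := AL g _ k; omega
  · refine p3 _ fun g k => hz (.inr (mem_iUnion₂.2 ⟨g * t⁻¹, ?_, by simpa [mul_smul] using k.1⟩))
    have := nm t g; have := AL g _ k; omega
  · obtain ⟨h, h1, h2⟩ := M3 x trivial hx
    refine ⟨h⁻¹, by simpa using h1, fun a ha => p2 a _ ⟨by simpa [mul_smul] using h2,
      fun i k k' => by omega⟩⟩
  · have h1 : {x | p x ≠ q x} ⊆ ⋃ g ∈ fb.toFinset, (fun x => g • x) ⁻¹' M := fun x hx => by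
      by_contra k
      exact hx (p3 x fun g k' => k (mem_biUnion (fb.mem_toFinset.2 (AL g x k')) k'.1))
    refine ((measureReal_mono h1 (measure_ne_top _ _)).trans (measureReal_biUnion_finset_le _ _)).trans ?_
    rw [Finset.sum_congr rfl fun g _ => (hmp g).measureReal_preimage M1.nullMeasurableSet,
      Finset.sum_const, nsmul_eq_mul]
    push_cast at M4
    have := measureReal_nonneg (μ := μ) (s := M)
    have h2 : (fb.toFinset.card : ℝ) ≤ (2 * l + m + 1) * δ := by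
      nlinarith [Nat.cast_nonneg (α := ℝ) l]
    nlinarith

end Pool.Agent.P.MP_11b517_an.St
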