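import Pool.Agent.P.MP_11b517_an.St.Level
import Pool.Agent.P.MP_11b517_an.St.Surg
import Pool.Agent.P.MP_11b517_an.St.Round
import Pool.Agent.P.MP_11b517_an.St.Sep

/-! The stages exist. -/

set_option autoImplicit false
set_option linter.unusedSectionVars false

namespace Pool.Agent.P.MP_11b517_an.St

open MeasureTheory Set
open scoped ENNReal

variable {ι Ω : Type} [DecidableEq ι] [Fintype ι] [MeasurableSpace Ω] [MulAction (FreeGroup ι) Ω]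
  {μ : Measure Ω} [IsProbabilityMeasure μ] [TopologicalSpace Ω]

/-- The invariant of the recursion. -/
def Ok (ι : Type) [DecidableEq ι] [MulAction (FreeGroup ι) Ω] (μ : Measure Ω) (k : ℕ)
    (s : State Ω) : Prop :=
  Measurable s.p ∧ (range s.p).Finite ∧ MeasurableSet s.Bad ∧ (∀ᵐ x ∂μ, x ∈ s.Gd) ∧
    LC μ s.p ∧ LC μ (· ∈ s.Bad) ∧ ∃ κ, Dens ι s.Bad (1 / 4 - 2⁻¹ ^ k / 4) κ

variable [Nontrivial ι] [CompactSpace Ω] [TopologicalSpace.MetrizableSpace Ω] [BorelSpace Ω]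

theorem stage (hc : ∀ g : FreeGroup ι, Continuous fun x : Ω => g • x)
    (hν : ∀ g : FreeGroup ι, Measure.map (fun x : Ω => g • x) μ = μ)
    (hu : ∀ ν' : Measure Ω, IsProbabilityMeasure ν' →
      (∀ g : FreeGroup ι, Measure.map (fun x : Ω => g • x) ν' = ν') → ν' = μ)
    (hfr : ∀ g : FreeGroup ι, g ≠ 1 → μ {x : Ω | g • x = x} = 0) {U : ℕ → Set Ω}
    (U1 : ∀ n, MeasurableSet (U n)) (U2 : ∀ n, LC μ (· ∈ U n))
    (U3 : ∀ x y, (∀ n, x ∈ U n ↔ y ∈ U n) → x = y) (Q : Cod ι) (j k : ℕ)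
    (s : State Ω) (h : Ok ι μ k s) : ∃ s', Ok ι μ (k + 1) s' ∧ Step μ Q (U j) k s s' := by
  classical
  obtain ⟨h1, h2, h3, h4, l1, l2, κ, h5⟩ := h
  have hmp : ∀ g : FreeGroup ι, MeasurePreserving (fun x : Ω => g • x) μ μ := fun g =>
    ⟨(hc g).measurable, hν g⟩
  have e0 : (0 : ℝ) < 1 / (k + 1) := by positivity
  obtain ⟨c, c1, c2, c3, c4⟩ := lc_colour hmp hc hfr U1 U2 U3 k
  obtain ⟨q, S, w, B, q1, q2, q3, lq, q4, q5, q6⟩ := level hmp hc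
    (fun A ε hA hε => lc_wit hc hν hu hA hε) h1 h2 l1 Q (U1 j) (U2 j) c1 c2 c3 k e0
  obtain ⟨N, T, T0, hT⟩ := rule_of (Ω := Ω) S Q k q5
    (c := μ.real {x | cfg ι q x ∈ Cyl Q} + 1 / (k + 1)) (by positivity) e0
  have fb := (finite_ball (ι := ι) k).to_subtype
  let π : Ω → {t : FreeGroup ι | t.norm ≤ k} → ℕ → ℕ := fun x t => q (t.1⁻¹ • x)
  obtain ⟨a1, a2⟩ := patterns (fun A => ue_hits hc hν hu) (π := π)
    ((Set.Finite.pi' fun _ => q3).subset (by rintro _ ⟨x, rfl⟩ t; exact ⟨_, rfl⟩)) fun b =>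
      (measurable_pi_lambda π fun t => q2.comp (hmp _).measurable) (measurableSet_singleton b)
  let P : Ω → Prop := fun x => x ∈ s.Gd ∧ (∀ g : FreeGroup ι, g ≠ 1 → g • x ≠ x) ∧
    μ (π ⁻¹' {π x}) ≠ 0
  have hP : ∀ᵐ x ∂μ, P x := h4.and (Filter.Eventually.and (ae_all_iff.2 fun g => by
    by_cases e : g = 1
    · exact Filter.Eventually.of_forall fun _ k => absurd e k
    · exact (measure_eq_zero_iff_ae_notMem.1 (hfr g e)).mono fun _ k _ => k) a1)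
  have hG : ∀ᵐ x ∂μ, x ∈ {x | ∀ g : FreeGroup ι, P (g • x)} :=
    ae_all_iff.2 fun g => (hmp g).quasiMeasurePreserving.ae hP
  have inv : ∀ (g : FreeGroup ι) x, x ∈ {x | ∀ g : FreeGroup ι, P (g • x)} →
      g • x ∈ {x | ∀ g : FreeGroup ι, P (g • x)} := fun g x hx g' => by
    rw [← mul_smul]; exact hx _
  have one : ∀ x ∈ {x | ∀ g : FreeGroup ι, P (g • x)}, P x := fun x hx => by
    have := hx 1
    rwa [one_smul] at this
  obtain ⟨x₀, x1, R, x2⟩ := a2 _ hG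
  have d0 : (0 : ℝ) < 2⁻¹ ^ k / 8 := by positivity
  obtain ⟨p, Bad, κ', n, p1, p2, l3, l4, p3, p4, p5, p6, p7, p8, p9⟩ := surgery hmp hc hfr U1 U2 U3
    h3 l2 h5 (by linarith) d0 q2 lq x₀ (R + k) (N + s.N + 3 * s.ρ + 1 + k)
  refine ⟨⟨p, q, Bad, {x | ∀ g : FreeGroup ι, P (g • x)}, N + s.N + 3 * s.ρ + 1 + k, n + R + k⟩,
    ⟨p1, q3.subset p2, p3, hG, l3, l4, κ', by
      rwa [show (1 / 4 - 2⁻¹ ^ (k + 1) / 4 : ℝ) = 1 / 4 - 2⁻¹ ^ k / 4 + 2⁻¹ ^ k / 8 by ring]⟩,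
    q1, q2, q3, fun x hx => (one x hx).1, inv, hG, by dsimp only; omega, by dsimp only; omega, p4,
    fun x => ?_, p7, fun x hx z hz => ?_, ?_, fun x z e => (q4 x z e).1, by dsimp only; omega,
    fun x hx t t1 ht e => c4 x (one x hx).2.1 t t1 ht (q4 _ _ e).2, fun hl =>
      ⟨S, w, B, T, T0, q5, hT _ (by dsimp only; omega) inv (fun x _ => q6 x hl) hl⟩⟩
  · obtain ⟨x', b1, b2⟩ := p6 x
    exact ⟨x', b1.imp_left fun ⟨g, e⟩ => e ▸ inv g _ x1, b2⟩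
  · obtain ⟨g, g1, g2⟩ := p8 x (one x hx).2.1
    obtain ⟨a, b1, b2⟩ := x2 z (one z hz).2.2
    refine ⟨g * a, by have := FreeGroup.norm_mul_le g a; dsimp only; omega, fun t ht => ?_⟩
    have := congrFun b2 ⟨t, ht⟩
    dsimp only [π] at this ⊢
    rw [mul_assoc, g2 _ (by have := FreeGroup.norm_mul_le a t; omega), mul_inv_rev, mul_smul, this]
  · refine (ENNReal.le_ofReal_iff_toReal_le (measure_ne_top _ _) (by positivity)).2
      (p9.trans (by linarith : _ ≤ (2⁻¹ : ℝ) ^ k)) |>.trans (le_of_eq ?_)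
    rw [ENNReal.ofReal_pow (by norm_num), ENNReal.ofReal_inv_of_pos (by norm_num)]
    simp

theorem stages (hc : ∀ g : FreeGroup ι, Continuous fun x : Ω => g • x)
    (hν : ∀ g : FreeGroup ι, Measure.map (fun x : Ω => g • x) μ = μ)
    (hu : ∀ ν' : Measure Ω, IsProbabilityMeasure ν' →
      (∀ g : FreeGroup ι, Measure.map (fun x : Ω => g • x) ν' = ν') → ν' = μ)
    (hfr : ∀ g : FreeGroup ι, g ≠ 1 → μ {x : Ω | g • x = x} = 0) : ∃ (Q : ℕ → Cod ι) (E : ℕ → Set Ω) (s : ℕ → State Ω),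
      (∀ k, Step μ (Q k) (E k) k (s k) (s (k + 1))) ∧ (∀ c n, ∃ k, n ≤ k ∧ Q k = c) ∧
      ∀ x x' : Ω, (∀ᶠ k in Filter.atTop, x ∈ E k ↔ x' ∈ E k) → x = x' := by
  classical
  obtain ⟨U, U1, U2, U3⟩ := lc_sep (ν := μ)
  obtain ⟨f, hf⟩ := exists_surjective_nat (Cod ι × ℕ)
  have hit : ∀ c n, ∃ k, n ≤ k ∧ f (Nat.unpair k).1 = c := fun c n => by
    obtain ⟨a, rfl⟩ := hf c
    exact ⟨Nat.pair a n, Nat.right_le_pair _ _, by simp⟩
  choose F F1 F2 using fun k => stage hc hν hu hfr U1 U2 U3 (f (Nat.unpair k).1).1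
    (f (Nat.unpair k).1).2 k
  let s : ∀ k, {s : State Ω // Ok ι μ k s} := fun k => Nat.rec
    ⟨⟨0, 0, ∅, univ, 0, 0⟩, measurable_const, (finite_singleton 0).subset
      (by rintro _ ⟨x, rfl⟩; rfl), MeasurableSet.empty, by simp, LC.const _, LC.const _, 0,
        fun z t => by simp⟩
    (fun k s => ⟨F k s.1 s.2, F1 k s.1 s.2⟩) k
  refine ⟨_, _, fun k => (s k).1, fun k => F2 k _ (s k).2, fun c n => ?_, fun x x' h => ?_⟩
  · obtain ⟨k, k1, k2⟩ := hit (c, 0) n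
    exact ⟨k, k1, by rw [k2]⟩
  · obtain ⟨n, hn⟩ := Filter.eventually_atTop.1 h
    refine U3 x x' fun j => ?_
    obtain ⟨k, k1, k2⟩ := hit ((∅, true), j) n
    have := hn k k1
    rwa [k2] at this

end Pool.Agent.P.MP_11b517_an.St
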