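import Pool.Agent.P.MP_11b517_an.St.Defs

/-! One stage of the construction. -/

set_option autoImplicit false

namespace Pool.Agent.P.MP_11b517_an.St

open MeasureTheory Set

/-- Configurations. -/
abbrev Cfg (ι : Type) : Type := FreeGroup ι → ℕ → ℕ

/-- Codes of cylinders and their complements. -/
abbrev Cod (ι : Type) : Type := Finset (FreeGroup ι × ℕ × ℕ) × Bool

/-- The data after a stage. -/
structure State (Ω : Type) where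
  p : Ω → ℕ → ℕ
  q : Ω → ℕ → ℕ
  Bad : Set Ω
  Gd : Set Ω
  N : ℕ
  ρ : ℕ

/-- A cylinder or its complement. -/
def Cyl {ι : Type} (Q : Cod ι) : Set (Cfg ι) := {y | (∀ c ∈ Q.1, y c.1 c.2.1 = c.2.2) ↔ Q.2 = true}

/-- The defect of a coboundary rule. -/
noncomputable def defect {ι : Type} (S : Finset (FreeGroup ι)) (A : Set (Cfg ι)) (k : ℕ)
    (w : ℕ → FreeGroup ι → ℝ) (c : ℝ) (y : Cfg ι) : ℝ :=
  A.indicator 1 y - c - ∑ s ∈ S, (w (y s k) s - w (y 1 k) s)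

variable (ι : Type) {Ω : Type} [MulAction (FreeGroup ι) Ω]

/-- The labels along an orbit. -/
def cfg (q : Ω → ℕ → ℕ) (x : Ω) : Cfg ι := fun g => q (g⁻¹ • x)

/-- The model space. -/
def YY (s : ℕ → State Ω) : Set (Cfg ι) :=
  ⋂ m, closure {y | ∃ k, m ≤ k ∧ ∃ x ∈ (s (k + 1)).Gd, y = cfg ι (s (k + 1)).q x}

variable {ι} [DecidableEq ι]

/-- Two windows glued along a scar. -/
def Glued (k : ℕ) (s : State Ω) (y : Cfg ι) : Prop :=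
  ∃ d, Scar d ∧ ∃ x' ∈ s.Gd, ∃ x'' ∈ s.Gd, ∀ t : FreeGroup ι, t.norm ≤ s.N → ∀ j ≤ k,
    y t j = s.q (t⁻¹ • if d t = 0 then x' else x'') j

/-- What stage `k` achieves. -/
structure Step [Fintype ι] [MeasurableSpace Ω] (μ : Measure Ω) (Q : Cod ι) (E : Set Ω) (k : ℕ)
    (s s' : State Ω) : Prop where
  lev : ∀ x j, j ≠ k → s'.q x j = s.p x j
  meas : Measurable s'.q
  fin : (range s'.q).Finite
  sub : s'.Gd ⊆ s.Gd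
  inv : ∀ (g : FreeGroup ι) x, x ∈ s'.Gd → g • x ∈ s'.Gd
  ae : ∀ᵐ x ∂μ, x ∈ s'.Gd
  mono : s.N ≤ s'.N
  big : 3 * s.ρ + 1 ≤ s'.N
  bad : s.Bad ⊆ s'.Bad
  step : ∀ x, ∃ x', (x' ∈ s'.Gd ∨ x' = x) ∧ ∃ d, Scar d ∧ (∀ t : FreeGroup ι, t.norm ≤ s'.N →
    s'.p (t⁻¹ • x) = s'.q (t⁻¹ • if d t = 0 then x' else x)) ∧
      ∀ N ≤ s'.N, ∀ t t' : FreeGroup ι, t.norm ≤ N → t'.norm ≤ N → d t = 0 → d t' ≠ 0 →
        ∃ u : FreeGroup ι, u.norm ≤ N ∧ u⁻¹ • x ∉ s.Bad ∧ u⁻¹ • x' ∉ s.Bad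
  clean : ∀ z ∉ s'.Bad, ∀ t : FreeGroup ι, t.norm ≤ 2 * s'.N → s'.p (t⁻¹ • z) = s'.q (t⁻¹ • z)
  plant : ∀ x ∈ s'.Gd, ∀ w ∈ s'.Gd, ∃ g : FreeGroup ι, g.norm + k ≤ s'.ρ ∧
    ∀ t : FreeGroup ι, t.norm ≤ k → s'.p ((g * t)⁻¹ • x) = s'.q (t⁻¹ • w)
  small : μ {x | s'.p x ≠ s'.q x} ≤ 2⁻¹ ^ k
  sep : ∀ x x', s'.q x k = s'.q x' k → (x ∈ E ↔ x' ∈ E)
  kN : k ≤ s'.N
  col : ∀ x ∈ s'.Gd, ∀ t : FreeGroup ι, t ≠ 1 → t.norm ≤ k → s'.q (t • x) k ≠ s'.q x k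
  rule : (∀ c ∈ Q.1, c.2.1 < k) → ∃ (S : Finset (FreeGroup ι)) (w : ℕ → FreeGroup ι → ℝ) (B : ℝ)
    (T : ℕ), 0 < T ∧ (∀ a g, |w a g| ≤ B) ∧ ∀ y : Cfg ι, Glued k s' y →
      ∑ l ∈ Finset.range T, walk^[l] (fun t => defect S (Cyl Q) k w
        (μ.real {x | cfg ι s'.q x ∈ Cyl Q} + 1 / (k + 1)) fun g => y (t * g)) 1 ≤ T * (1 / (k + 1))

end Pool.Agent.P.MP_11b517_an.St
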