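import Pool.Agent.P.MP_11b517_an.St.Glue

/-! The limit labels and uniqueness of the invariant measure. -/

set_option autoImplicit false

namespace Pool.Agent.P.MP_11b517_an.St

open MeasureTheory Set Filter Topology

variable {ι Ω : Type} [DecidableEq ι] [Fintype ι] [MeasurableSpace Ω] [MulAction (FreeGroup ι) Ω]
  {μ : Measure Ω} [IsProbabilityMeasure μ] {Q : ℕ → Cod ι} {E : ℕ → Set Ω} {s : ℕ → State Ω}

omit [IsProbabilityMeasure μ] in
theorem un_stab (H : ∀ k, Step μ (Q k) (E k) k (s k) (s (k + 1))) :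
    ∀ᵐ x ∂μ, ∀ᶠ k in atTop, ∀ j ≤ k, ∀ k' ≥ k, (s (k' + 1)).q x j = (s (k + 1)).q x j := by
  have h : (∑' k, μ {x | (s (k + 1)).p x ≠ (s (k + 1)).q x}) ≠ ⊤ :=
    ne_top_of_le_ne_top (by simp) (ENNReal.tsum_le_tsum fun k => (H k).small)
  filter_upwards [ae_eventually_notMem h] with x hx
  obtain ⟨a, ha⟩ := eventually_atTop.1 hx
  refine eventually_atTop.2 ⟨a, fun k hk j hj k' hk' => ?_⟩
  induction k', hk' using Nat.le_induction with
  | base => rfl
  | succ n hn ih => rw [(H (n + 1)).lev x j (by omega), not_not.1 (ha n (hk.trans hn)), ih]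

theorem limit (H : ∀ k, Step μ (Q k) (E k) k (s k) (s (k + 1))) :
    ∃ P : Ω → ℕ → ℕ, Measurable P ∧ ∀ᵐ x ∂μ, ∀ᶠ k in atTop, ∀ j ≤ k, P x j = (s (k + 1)).q x j := by
  have key : ∀ x, (∀ᶠ k in atTop, ∀ j ≤ k, ∀ k' ≥ k, (s (k' + 1)).q x j = (s (k + 1)).q x j) →
      ∀ j, ∃ l, Tendsto (fun k => (s (k + 1)).q x j) atTop (𝓝 l) := fun x hx j => by
    obtain ⟨k, h1, h2⟩ := (hx.and (eventually_ge_atTop j)).exists
    exact ⟨_, tendsto_atTop_of_eventually_const (h1 j h2)⟩
  obtain ⟨P, hP, hl⟩ := measurable_limit_of_tendsto_metrizable_ae (μ := μ) (L := atTop)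
    (f := fun k => (s (k + 1)).q) (fun k => (H k).meas.aemeasurable) (by
      filter_upwards [un_stab H] with x hx
      choose l hl using key x hx
      exact ⟨l, tendsto_pi_nhds.2 hl⟩)
  refine ⟨P, hP, ?_⟩
  filter_upwards [un_stab H, hl] with x hx h
  filter_upwards [hx] with k hk j hj
  exact tendsto_nhds_unique (tendsto_pi_nhds.1 h j) (tendsto_atTop_of_eventually_const (hk j hj))

omit [DecidableEq ι] in
theorem un_cyl (c : Cod ι) : MeasurableSet (Cyl c) :=
  measurableSet_setOfPred.2 (Measurable.iff (Measurable.forall fun a => measurable_const.imp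
    (((measurable_pi_apply a.2.1).comp (measurable_pi_apply a.1)).eq_const _)) measurable_const)

omit [DecidableEq ι] [Fintype ι] in
theorem un_comp {ν : Measure (Cfg ι)} {T : Cfg ι → Cfg ι} (hT : MeasurePreserving T ν ν)
    {f : Cfg ι → ℝ} (hf : Integrable f ν) :
    Integrable (fun y => f (T y)) ν ∧ ∫ y, f (T y) ∂ν = ∫ y, f y ∂ν :=
  ⟨hT.integrable_comp_of_integrable hf, by
    rw [← integral_map hT.aemeasurable (hT.map_eq.symm ▸ hf.aestronglyMeasurable), hT.map_eq]⟩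

theorem un_walk [Nonempty ι] {ν : Measure (Cfg ι)}
    (hν : ∀ g : FreeGroup ι, MeasurePreserving (fun (y : Cfg ι) => (fun t => y (g * t) : Cfg ι)) ν ν)
    {f : Cfg ι → ℝ} (hf : Integrable f ν) (l : ℕ) (t₀ : FreeGroup ι) :
    Integrable (fun y : Cfg ι => walk^[l] (fun t => f fun g => y (t * g)) t₀) ν ∧
      ∫ y, walk^[l] (fun t => f fun g => y (t * g)) t₀ ∂ν = ∫ y, f y ∂ν := by
  induction l generalizing t₀ with
  | zero => exact un_comp (hν t₀) hf
  | succ l ih =>
    simp only [Function.iterate_succ_apply', walk]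
    refine ⟨(integrable_finsetSum _ fun a _ => (ih _).1).div_const _, ?_⟩
    rw [integral_div, integral_finsetSum _ fun a _ => (ih _).1]
    simp only [(ih _).2, Finset.sum_const, Finset.card_univ, nsmul_eq_mul]
    exact mul_div_cancel_left₀ _ (Nat.cast_ne_zero.2 Fintype.card_ne_zero)

omit [IsProbabilityMeasure μ] in
theorem un_le [Nonempty ι] (H : ∀ k, Step μ (Q k) (E k) k (s k) (s (k + 1)))
    {ν : Measure (Cfg ι)} [IsProbabilityMeasure ν] (hY : ∀ᵐ y ∂ν, y ∈ YY ι s)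
    (hν : ∀ g : FreeGroup ι, MeasurePreserving (fun (y : Cfg ι) => (fun t => y (g * t) : Cfg ι)) ν ν)
    {k : ℕ} (hk : ∀ c ∈ (Q k).1, c.2.1 < k) :
    ν.real (Cyl (Q k)) ≤ μ.real {x | cfg ι (s (k + 1)).q x ∈ Cyl (Q k)} + 2 * (1 / (k + 1)) := by
  obtain ⟨S, w, B, T, hT, hB, h⟩ := (H k).rule hk
  set c := μ.real {x | cfg ι (s (k + 1)).q x ∈ Cyl (Q k)} + 1 / (k + 1) with hc
  have h1 : ∀ a, Integrable (fun y : Cfg ι => w (y 1 k) a) ν := fun a =>
    Integrable.of_bound ((measurable_from_top (f := fun n => w n a)).comp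
      ((measurable_pi_apply k).comp (measurable_pi_apply 1))).aestronglyMeasurable B
      (ae_of_all _ fun y => hB _ _)
  have h2 : ∀ a, Integrable (fun y : Cfg ι => w (y a k) a) ν ∧
      ∫ y, w (y a k) a ∂ν = ∫ y, w (y 1 k) a ∂ν := fun a => by
    simpa using un_comp (hν a) (h1 a)
  have h3 : Integrable ((Cyl (Q k)).indicator (1 : Cfg ι → ℝ)) ν :=
    (integrable_const 1).indicator (un_cyl _)
  have h6 : ∀ a, Integrable (fun y : Cfg ι => w (y a k) a - w (y 1 k) a) ν := fun a =>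
    (h2 a).1.sub (h1 a)
  have h4 : Integrable (fun y : Cfg ι => ∑ a ∈ S, (w (y a k) a - w (y 1 k) a)) ν :=
    integrable_finsetSum _ fun a _ => h6 a
  have h5 : Integrable (fun y => (Cyl (Q k)).indicator (1 : Cfg ι → ℝ) y - c) ν :=
    h3.sub (integrable_const c)
  have hf : Integrable (defect S (Cyl (Q k)) k w c) ν := h5.sub h4
  have e : ∫ y, defect S (Cyl (Q k)) k w c y ∂ν = ν.real (Cyl (Q k)) - c := by
    unfold defect
    rw [integral_sub h5 h4, integral_sub h3 (integrable_const c),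
      integral_finsetSum _ fun a _ => h6 a, integral_indicator_one (un_cyl _),
      Finset.sum_eq_zero fun a _ => by rw [integral_sub (h2 a).1 (h1 a), (h2 a).2, sub_self]]
    simp
  have := integral_mono_ae (integrable_finsetSum (Finset.range T) fun l _ => (un_walk hν hf l 1).1)
    (integrable_const _) (hY.mono fun y hy => h y (YY_glued H hy k))
  rw [integral_finsetSum _ fun l _ => (un_walk hν hf l 1).1] at this
  simp only [(un_walk hν hf _ 1).2, e, Finset.sum_const, Finset.card_range, nsmul_eq_mul,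
    integral_const, probReal_univ, one_smul] at this
  have := le_of_mul_le_mul_left this (Nat.cast_pos.2 hT)
  linarith

omit [DecidableEq ι] [IsProbabilityMeasure μ] in
theorem un_cfg (hmp : ∀ g : FreeGroup ι, MeasurePreserving (fun x : Ω => g • x) μ μ)
    {P : Ω → ℕ → ℕ} (hP : Measurable P) : Measurable (cfg ι P) :=
  measurable_pi_lambda _ fun g => hP.comp (hmp g⁻¹).measurable

theorem un_le' [Nonempty ι] (hmp : ∀ g : FreeGroup ι, MeasurePreserving (fun x : Ω => g • x) μ μ)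
    (H : ∀ k, Step μ (Q k) (E k) k (s k) (s (k + 1))) (hQ : ∀ c n, ∃ k, n ≤ k ∧ Q k = c)
    {P : Ω → ℕ → ℕ} (hP : Measurable P)
    (hl : ∀ᵐ x ∂μ, ∀ᶠ k in atTop, ∀ j ≤ k, P x j = (s (k + 1)).q x j)
    {ν : Measure (Cfg ι)} [IsProbabilityMeasure ν] (hY : ∀ᵐ y ∂ν, y ∈ YY ι s)
    (hν : ∀ g : FreeGroup ι, MeasurePreserving (fun (y : Cfg ι) => (fun t => y (g * t) : Cfg ι)) ν ν)
    (c : Cod ι) : ν.real (Cyl c) ≤ (μ.map (cfg ι P)).real (Cyl c) := by
  rw [map_measureReal_apply (un_cfg hmp hP) (un_cyl c)]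
  have hb : ∀ᶠ k in atTop, ∀ a ∈ c.1, a.2.1 < k :=
    (eventually_all_finset _).2 fun a _ => eventually_gt_atTop _
  have t1 := tendsto_measure_of_ae_tendsto_indicator_of_isFiniteMeasure atTop (μ := μ)
    (As := fun k => cfg ι (s (k + 1)).q ⁻¹' Cyl c) (un_cfg hmp hP (un_cyl c))
    (fun k => un_cfg hmp (H k).meas (un_cyl c)) (by
      filter_upwards [ae_all_iff.2 fun g : FreeGroup ι => (hmp g⁻¹).quasiMeasurePreserving.ae hl]
        with x hx
      filter_upwards [hb, (eventually_all_finset c.1).2 fun a _ => hx a.1] with k h1 h2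
      refine iff_congr (forall₂_congr fun a ha => ?_) Iff.rfl
      rw [cfg, cfg, h2 a ha _ (h1 a ha).le])
  have t2 := ((ENNReal.tendsto_toReal (measure_ne_top _ _)).comp t1).add
    ((tendsto_one_div_add_atTop_nhds_zero_nat (𝕜 := ℝ)).const_mul 2)
  rw [mul_zero, add_zero] at t2
  refine ge_of_tendsto_of_frequently t2 (Frequently.mono (Frequently.and_eventually
    (p := fun k => Q k = c) (frequently_atTop.2 fun n => hQ c n) hb) ?_)
  rintro k ⟨rfl, h⟩
  exact un_le H hY hν h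

omit [Fintype ι] in
theorem un_ext [Finite ι] {ν ν' : Measure (Cfg ι)} [IsProbabilityMeasure ν] [IsProbabilityMeasure ν']
    (h : ∀ c, ν.real (Cyl c) ≤ ν'.real (Cyl c)) : ν = ν' := by
  have := Fintype.ofFinite ι
  refine ext_of_generate_finite (range fun F => Cyl (F, true)) (le_antisymm ?_ ?_) ?_ ?_ (by simp)
  · have : @Measurable _ (Cfg ι) (.generateFrom (range fun F => Cyl (F, true))) _ id := by
      let _ : MeasurableSpace (Cfg ι) := .generateFrom (range fun F => Cyl (F, true))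
      exact measurable_pi_lambda _ fun g => measurable_pi_lambda _ fun j =>
        measurable_to_countable' fun a => .basic _ ⟨{(g, j, a)}, by ext y; simp [Cyl]⟩
    exact fun t ht => this ht
  · exact MeasurableSpace.generateFrom_le (by rintro _ ⟨F, rfl⟩; exact un_cyl _)
  · rintro _ ⟨F, rfl⟩ _ ⟨F', rfl⟩ -
    exact ⟨F ∪ F', by ext y; simp only [Cyl, mem_inter_iff, mem_ofPred_eq, iff_true,
      Finset.forall_mem_union]⟩
  · rintro _ ⟨F, rfl⟩
    have e : Cyl (F, false) = (Cyl (F, true))ᶜ := by ext y; simp [Cyl]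
    have h1 := h (F, false)
    rw [e, probReal_compl_eq_one_sub (un_cyl _), probReal_compl_eq_one_sub (un_cyl _)] at h1
    exact (measureReal_eq_measureReal_iff (measure_ne_top _ _) (measure_ne_top _ _)).1
      (le_antisymm (h _) (by linarith))

omit [IsProbabilityMeasure μ] in
theorem un_empty [IsEmpty ι] (H : ∀ k, Step μ (Q k) (E k) k (s k) (s (k + 1))) {P : Ω → ℕ → ℕ}
    (hl : ∀ᵐ x ∂μ, ∀ᶠ k in atTop, ∀ j ≤ k, P x j = (s (k + 1)).q x j) :
    ∀ᵐ x ∂μ, ∀ y ∈ YY ι s, cfg ι P x = y := by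
  filter_upwards [hl, ae_all_iff.2 fun k => (H k).ae] with x h1 h2 y hy
  funext t j
  obtain rfl : t = 1 := Subsingleton.elim _ _
  obtain ⟨k, h3, h4⟩ := (h1.and (eventually_ge_atTop j)).exists
  have hc : ∀ w ∈ (s (k + 1)).Gd, (s (k + 1)).p x = (s (k + 1)).q w := fun w hw => by
    obtain ⟨g, -, hg⟩ := (H k).plant x (h2 k) w hw
    obtain rfl : g = 1 := Subsingleton.elim _ _
    simpa using hg 1 (by simp)
  obtain ⟨d, -, x', hx', x'', hx'', h⟩ := YY_glued H hy k
  rw [h 1 (by simp) j h4, cfg, inv_one, one_smul, one_smul, h3 j h4, ← hc x (h2 k)]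
  split_ifs
  · rw [hc x' hx']
  · rw [hc x'' hx'']

theorem YY_unique (hmp : ∀ g : FreeGroup ι, MeasurePreserving (fun x : Ω => g • x) μ μ)
    (H : ∀ k, Step μ (Q k) (E k) k (s k) (s (k + 1))) (hQ : ∀ c n, ∃ k, n ≤ k ∧ Q k = c)
    {P : Ω → ℕ → ℕ} (hP : Measurable P)
    (hl : ∀ᵐ x ∂μ, ∀ᶠ k in atTop, ∀ j ≤ k, P x j = (s (k + 1)).q x j)
    (ν : Measure (Cfg ι)) [IsProbabilityMeasure ν] (hY : ∀ᵐ y ∂ν, y ∈ YY ι s)
    (hν : ∀ g : FreeGroup ι, MeasurePreserving (fun (y : Cfg ι) => (fun t => y (g * t) : Cfg ι)) ν ν) :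
    ν = μ.map (cfg ι P) := by
  have := Measure.isProbabilityMeasure_map (μ := μ) (un_cfg hmp hP).aemeasurable
  rcases isEmpty_or_nonempty ι with h | h
  · have h1 := un_empty H hl
    obtain ⟨x, hx⟩ := h1.exists
    obtain ⟨y, hy⟩ := hY.exists
    have e1 : (id : Cfg ι → Cfg ι) =ᵐ[ν] fun _ => y :=
      hY.mono fun y' hy' => (hx y' hy').symm.trans (hx y hy)
    have e2 : cfg ι P =ᵐ[μ] fun _ => y := h1.mono fun x' hx' => hx' y hy
    rw [Measure.map_congr e2, ← Measure.map_id (μ := ν), Measure.map_congr e1]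
    simp
  · exact un_ext (un_le' hmp H hQ hP hl hY hν)

end Pool.Agent.P.MP_11b517_an.St
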